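import Pool.Agent.N206.HJ.Stm

set_option autoImplicit false

namespace Pool.Agent.N206.HJ

open MvPowerSeries

/-- assembly -/
theorem asm (p : ℕ) [Fact p.Prime] (hBLOW : S_BLOW p) (hCNT : S_CNT p) (hF1 : S_FIN1 p)
    (hF2 : S_FIN2 p) (hF3 : S_FIN3 p) :
    ∃ (G : Type) (_ : Group G), Countable G ∧ RF G ∧ HJI G ∧ SelfSimilar G ∧ ¬ Linear G := by
  obtain ⟨φ, h1, h2⟩ := hBLOW
  obtain ⟨G0, hG, hc⟩ := hCNT φ (fun g => h1 2 le_rfl g g.2)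
  exact ⟨G0, inferInstance, hc, (hF1 φ G0 hG).1, (hF1 φ G0 hG).2, hF2 φ G0 hG h1 h2, hF3 φ G0 hG⟩

/-- all parts together -/
theorem asm_all (p : ℕ) [Fact p.Prime]
    (hEXIST : S_EXIST p) (hDET : S_DET p) (hDET2 : S_DET2 p) (hTAY : S_TAY p) (hPPOW : S_PPOW p)
    (hGRP : S_DET p → S_GRP p) (hCPL : S_EXIST p → S_DET2 p → S_CPL p)
    (hADD : S_DET2 p → S_ADD p) (hCONJ : S_DET2 p → S_TAY p → S_CONJ p)
    (hSTART : S_DET2 p → S_TAY p → S_PPOW p → S_START p)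
    (hBR : S_DET2 p → S_TAY p → S_PPOW p → S_BR p)
    (hHT : S_HT p) (hEXTR : S_EXTR p)
    (hFA : S_EXIST p → S_DET2 p → S_START p → S_BR p → S_FA p)
    (hFB : S_EXIST p → S_ADD p → S_CONJ p → S_HT p → S_FB p)
    (hFIRST : S_FA p → S_FB p → S_EXTR p → S_FIRST p)
    (hLT : S_DET2 p → S_TAY p → S_LT p)
    (hCENT : S_DET2 p → S_EXIST p → S_LT p → S_CENT p)
    (hSECOND : S_EXIST p → S_LT p → S_SECOND p)
    (hSTEPA : S_STEPA p)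
    (hSTEP : S_EXIST p → S_DET2 p → S_LT p → S_STEPA p → S_TAY p → S_GRP p → S_STEP p)
    (hSURJ : S_STEP p → S_GRP p → S_CPL p → S_SURJ p)
    (hBLOW : S_EXIST p → S_DET2 p → S_BLOW p)
    (hSS : S_SS) (hLIN0 : S_LIN0) (hLINP : S_LINP) (hUNB : S_EXIST p → S_DET2 p → S_UNB p)
    (hCLOS : S_CLOS) (hCNT : S_DET2 p → S_CLOS → S_CNT p)
    (hKEY : S_FIRST p → S_SECOND p → S_SURJ p → S_KEY p)
    (hFIN1 : S_KEY p → S_GRP p → S_CENT p → S_EXIST p → S_FIN1 p)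
    (hFIN2 : S_KEY p → S_GRP p → S_SS → S_EXIST p → S_DET2 p → S_FIN2 p)
    (hFIN3 : S_LIN0 → S_LINP → S_UNB p → S_FIN3 p) :
    ∃ (G : Type) (_ : Group G), Countable G ∧ RF G ∧ HJI G ∧ SelfSimilar G ∧ ¬ Linear G := by
  have gGRP := hGRP hDET
  have gCPL := hCPL hEXIST hDET2
  have gFA := hFA hEXIST hDET2 (hSTART hDET2 hTAY hPPOW) (hBR hDET2 hTAY hPPOW)
  have gFB := hFB hEXIST (hADD hDET2) (hCONJ hDET2 hTAY) hHT
  have gLT := hLT hDET2 hTAY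
  have gFIRST := hFIRST gFA gFB hEXTR
  have gSECOND := hSECOND hEXIST gLT
  have gSURJ := hSURJ (hSTEP hEXIST hDET2 gLT hSTEPA hTAY gGRP) gGRP gCPL
  have gKEY := hKEY gFIRST gSECOND gSURJ
  exact asm p (hBLOW hEXIST hDET2) (hCNT hDET2 hCLOS)
    (hFIN1 gKEY gGRP (hCENT hDET2 hEXIST gLT) hEXIST)
    (hFIN2 gKEY gGRP hSS hEXIST hDET2) (hFIN3 hLIN0 hLINP (hUNB hEXIST hDET2))

end Pool.Agent.N206.HJ
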