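import Pool.Agent.N206.HJ.Def

set_option autoImplicit false

namespace Pool.Agent.N206.HJ

open MvPowerSeries

variable {p : ℕ}

theorem M_anti {i j : ℕ} (h : i ≤ j) {f : A p} (hf : f ∈ M p j) : f ∈ M p i :=
  fun α hα => hf α (lt_of_lt_of_le hα h)

theorem M_zero (f : A p) : f ∈ M p 0 := fun α hα => absurd hα (Nat.not_lt_zero _)

theorem M_mul {i j : ℕ} {f g : A p} (hf : f ∈ M p i) (hg : g ∈ M p j) : f * g ∈ M p (i + j) := by
  intro α hα
  classical
  rw [coeff_mul]
  apply Finset.sum_eq_zero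
  intro x hx
  rw [Finset.HasAntidiagonal.mem_antidiagonal] at hx
  have h1 : (x.1 + x.2).degree = x.1.degree + x.2.degree := map_add _ _ _
  rw [hx] at h1
  by_cases h : x.1.degree < i
  · rw [hf x.1 h, zero_mul]
  · rw [hg x.2 (by omega), mul_zero]

theorem M_mul_left {i : ℕ} {f g : A p} (hg : g ∈ M p i) : f * g ∈ M p i :=
  Ideal.mul_mem_left _ _ hg

theorem M_mul_right {i : ℕ} {f g : A p} (hf : f ∈ M p i) : f * g ∈ M p i :=
  Ideal.mul_mem_right _ _ hf

theorem X_mem (i : Fin 3) : (X i : A p) ∈ M p 1 := by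
  intro α hα
  classical
  rw [coeff_X]
  split_ifs with h
  · rw [h, Finsupp.degree_single] at hα
    omega
  · rfl

theorem M_pow {i : ℕ} {f : A p} (hf : f ∈ M p i) (n : ℕ) : f ^ n ∈ M p (i * n) := by
  induction n with
  | zero => exact M_zero _
  | succ n ih =>
    rw [pow_succ, Nat.mul_succ]
    exact M_mul ih hf

theorem Xpow_mem (i : Fin 3) (n : ℕ) : (X i ^ n : A p) ∈ M p n := by
  have := M_pow (X_mem (p := p) i) n
  rwa [one_mul] at this

/-- an element in all `M p i` vanishes -/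
theorem M_all {f : A p} (h : ∀ i, f ∈ M p i) : f = 0 := by
  ext α
  rw [coeff_zero]
  exact h (α.degree + 1) α (Nat.lt_succ_self _)

theorem pderiv_mem {i : ℕ} {f : A p} (hf : f ∈ M p i) (j : Fin 3) :
    pderiv (ZMod p) j f ∈ M p (i - 1) := by
  intro α hα
  rw [coeff_pderiv, hf _ ?_, zero_mul]
  have h1 : (α + Finsupp.single j 1).degree = α.degree + (Finsupp.single j 1).degree := map_add _ _ _
  rw [Finsupp.degree_single] at h1
  omega

theorem hs_coeff (b : Fin 3) (r : ℕ) (f : A p) (α : Fin 3 →₀ ℕ) :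
    coeff α (hs b r f) = (Nat.choose (α b + r) r : ZMod p) * coeff (α + Finsupp.single b r) f := rfl

theorem hs_mem {i : ℕ} {f : A p} (hf : f ∈ M p i) (b : Fin 3) (r : ℕ) :
    hs b r f ∈ M p (i - r) := by
  intro α hα
  rw [hs_coeff, hf _ ?_, mul_zero]
  have h1 : (α + Finsupp.single b r).degree = α.degree + (Finsupp.single b r).degree := map_add _ _ _
  rw [Finsupp.degree_single] at h1
  omega

theorem vf_add (D : Fin 3 → A p) (f g : A p) : vf D (f + g) = vf D f + vf D g := by
  simp only [vf, map_add, mul_add, Finset.sum_add_distrib]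

theorem vf_sub (D : Fin 3 → A p) (f g : A p) : vf D (f - g) = vf D f - vf D g := by
  simp only [vf, map_sub, mul_sub, Finset.sum_sub_distrib]

theorem vf_mul (D : Fin 3 → A p) (f g : A p) : vf D (f * g) = f * vf D g + g * vf D f := by
  simp only [vf, Derivation.leibniz, smul_eq_mul, Finset.mul_sum, ← Finset.sum_add_distrib]
  refine Finset.sum_congr rfl fun j _ => ?_
  ring

theorem vf_X (D : Fin 3 → A p) (i : Fin 3) : vf D (X i) = D i := by
  rw [vf, Finset.sum_eq_single i]
  · rw [pderiv_X_self, mul_one]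
  · intro b _ hb
    rw [pderiv_X_of_ne, mul_zero]
    exact fun h => hb (by first | exact h | exact h.symm)
  · intro h; exact absurd (Finset.mem_univ i) h

theorem vf_mem {s t : ℕ} {D : Fin 3 → A p} {f : A p} (hD : ∀ i, D i ∈ M p s) (hf : f ∈ M p t) :
    vf D f ∈ M p (s + (t - 1)) :=
  Ideal.sum_mem _ fun j _ => M_mul (hD j) (pderiv_mem hf j)

/-- `X a ^ n` is a constant for derivations if `p ∣ n` -/
theorem vf_Xpow_mul (D : Fin 3 → A p) (a : Fin 3) (n : ℕ) (hn : p ∣ n) (f : A p) :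
    vf D (X a ^ n * f) = X a ^ n * vf D f := by
  have h0 : vf D (X a ^ n) = 0 := by
    rw [vf]
    apply Finset.sum_eq_zero
    intro j _
    rw [Derivation.leibniz_pow]
    obtain ⟨m, rfl⟩ := hn
    rw [mul_smul, ← Nat.cast_smul_eq_nsmul (ZMod p), CharP.cast_eq_zero, zero_smul, mul_zero]
  rw [vf_mul, h0, mul_zero, add_zero]

theorem vf_smul_left (c : A p) (D : Fin 3 → A p) (f : A p) :
    vf (fun i => c * D i) f = c * vf D f := by
  simp only [vf, Finset.mul_sum, mul_assoc]

theorem vf_add_left (D E : Fin 3 → A p) (f : A p) :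
    vf (fun i => D i + E i) f = vf D f + vf E f := by
  simp only [vf, add_mul, Finset.sum_add_distrib]

/-! ### congruence subgroups -/

theorem Ga_anti {i j : ℕ} (h : i ≤ j) {g : Au p} (hg : g ∈ Ga p j) : g ∈ Ga p i :=
  fun t f hf => ⟨M_anti (by omega) (hg t f hf).1, M_anti (by omega) (hg t f hf).2⟩

theorem Ga_sub {k t : ℕ} {g : Au p} (hg : g ∈ Ga p k) {f : A p} (hf : f ∈ M p t) :
    g f - f ∈ M p (t + k) := (hg t f hf).1

theorem Ga_pres {k t : ℕ} {g : Au p} (hg : g ∈ Ga p k) {f : A p} (hf : f ∈ M p t) :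
    g f ∈ M p t := by
  have h1 : g f = (g f - f) + f := by ring
  rw [h1]
  exact Ideal.add_mem _ (M_anti (by omega) (Ga_sub hg hf)) hf

theorem Ga_X {k : ℕ} {g : Au p} (hg : g ∈ Ga p k) (i : Fin 3) : g (X i) - X i ∈ M p (k + 1) := by
  have := Ga_sub hg (X_mem (p := p) i)
  rwa [add_comm] at this

theorem mul_ap (g h : Au p) (f : A p) : (g * h) f = g (h f) := rfl

theorem inv_ap (g : Au p) (f : A p) : g (g⁻¹ f) = f := g.apply_symm_apply f

theorem ap_inv (g : Au p) (f : A p) : g⁻¹ (g f) = f := g.symm_apply_apply f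

theorem inv_eq (g : Au p) (f : A p) : g⁻¹ f = g.symm f := rfl

end Pool.Agent.N206.HJ
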