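import Pool.Agent.N206.HJ.Stm

set_option autoImplicit false

namespace Pool.Agent.N206.HJ

open MvPowerSeries

theorem t_CPL (p : ℕ) [Fact p.Prime] (h1 : S_EXIST p) (h2 : S_DET2 p) : S_CPL p := by
  intro g k hk hg hgg
  have hstep : ∀ l i, g (l + 1) (X i) - g l (X i) ∈ M p (k + l + 1) := by
    intro l i
    have h := Ga_pres (hg l) (Ga_X (hgg l) i)
    rw [map_sub, mul_ap, inv_ap] at h
    exact h
  have hle : ∀ d l i, g (l + d) (X i) - g l (X i) ∈ M p (k + l + 1) := by
    intro d
    induction d with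
    | zero => intro l i; rw [add_zero, sub_self]; exact Ideal.zero_mem _
    | succ d ih =>
      intro l i
      have e : g (l + (d + 1)) (X i) - g l (X i) = (g (l + d + 1) (X i) - g (l + d) (X i)) +
          (g (l + d) (X i) - g l (X i)) := by rw [← add_assoc]; ring
      rw [e]
      exact Ideal.add_mem _ (M_anti (by omega) (hstep (l + d) i)) (ih l i)
  let L : Fin 3 → A p := fun i α => coeff α (g (α.degree + 1) (X i))
  have hLc : ∀ i α, coeff α (L i) = coeff α (g (α.degree + 1) (X i)) := fun i α => rfl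
  have hL : ∀ l i, L i - g l (X i) ∈ M p (k + l + 1) := by
    intro l i α hα
    rw [map_sub, hLc]
    have h3 := hle l (α.degree + 1) i α (by omega)
    have h4 := hle (α.degree + 1) l i α hα
    rw [map_sub, sub_eq_zero] at h3 h4
    rw [← h3, ← h4, add_comm, sub_self]
  obtain ⟨G, hG, hGX⟩ := h1 k hk (fun i => L i - X i) (by
    intro i
    have e : L i - X i = (L i - g 0 (X i)) + (g 0 (X i) - X i) := by ring
    rw [e]
    exact Ideal.add_mem _ (M_anti (by omega) (hL 0 i)) (Ga_X (hg 0) i))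
  refine ⟨G, hG, fun l => ?_⟩
  have hG1 : (g l)⁻¹ * G ∈ Ga p 1 :=
    Ga_anti hk (Subgroup.mul_mem _ (Subgroup.inv_mem _ (hg l)) hG)
  refine h2.2 _ hG1 (k + l) fun i => ?_
  have e : ((g l)⁻¹ * G) (X i) - X i = (g l)⁻¹ (L i - g l (X i)) := by
    rw [mul_ap, hGX i, map_sub, ap_inv]
    have e2 : X i + (L i - X i) = L i := by ring
    rw [e2]
  rw [e]
  exact Ga_pres (Subgroup.inv_mem _ (hg l)) (hL l i)

end Pool.Agent.N206.HJ
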