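import Mathlib

set_option autoImplicit false

/-!
Automorphisms of the power series ring in three variables over `F_p`: congruence subgroups,
vector fields, Hasse derivatives.
-/

namespace Pool.Agent.N206.HJ

open MvPowerSeries

/-- the power series ring in three variables over `F_p` -/
abbrev A (p : ℕ) : Type := MvPowerSeries (Fin 3) (ZMod p)

/-- the ideal of power series of order at least `i` -/
def M (p : ℕ) (i : ℕ) : Ideal (A p) where
  carrier := {f | ∀ α : Fin 3 →₀ ℕ, α.degree < i → coeff α f = 0}
  zero_mem' := fun α _ => coeff_zero α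
  add_mem' := by
    intro f g hf hg α hα
    rw [map_add, hf α hα, hg α hα, add_zero]
  smul_mem' := by
    intro c f hf α hα
    classical
    rw [smul_eq_mul, coeff_mul]
    apply Finset.sum_eq_zero
    intro x hx
    rw [Finset.HasAntidiagonal.mem_antidiagonal] at hx
    rw [hf x.2 ?_, mul_zero]
    have h1 : (x.1 + x.2).degree = x.1.degree + x.2.degree := map_add _ _ _
    rw [hx] at h1
    omega

theorem mem_M {p i : ℕ} {f : A p} :
    f ∈ M p i ↔ ∀ α : Fin 3 →₀ ℕ, α.degree < i → coeff α f = 0 := Iff.rfl

/-- the group of automorphisms of the algebra `A p` -/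
abbrev Au (p : ℕ) : Type := A p ≃ₐ[ZMod p] A p

/-- the congruence subgroups: `g` and its inverse are congruent to `1` modulo raising the order
by `k` -/
def Ga (p : ℕ) (k : ℕ) : Subgroup (Au p) where
  carrier := {g | ∀ i : ℕ, ∀ f ∈ M p i, g f - f ∈ M p (i + k) ∧ g.symm f - f ∈ M p (i + k)}
  one_mem' := by
    intro i f _
    constructor
    · simp
    · have : (1 : Au p).symm f = f := rfl
      rw [this, sub_self]
      exact Ideal.zero_mem _
  mul_mem' := by
    intro g h hg hh i f hf
    have key : ∀ (a b : Au p), (∀ i : ℕ, ∀ f ∈ M p i, a f - f ∈ M p (i + k)) →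
        (∀ i : ℕ, ∀ f ∈ M p i, b f - f ∈ M p (i + k)) → a (b f) - f ∈ M p (i + k) := by
      intro a b ha hb
      have h1 : b f - f ∈ M p (i + k) := hb i f hf
      have h2 : a (b f - f) - (b f - f) ∈ M p (i + k) := by
        have := ha (i + k) _ h1
        intro α hα
        exact this α (by omega)
      have h3 : a f - f ∈ M p (i + k) := ha i f hf
      have h4 : a (b f) - f = (a (b f - f) - (b f - f)) + (a f - f) + (b f - f) := by
        rw [map_sub]; ring
      rw [h4]
      exact Ideal.add_mem _ (Ideal.add_mem _ h2 h3) h1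
    exact ⟨key g h (fun i f hf => (hg i f hf).1) (fun i f hf => (hh i f hf).1),
      key h.symm g.symm (fun i f hf => (hh i f hf).2) (fun i f hf => (hg i f hf).2)⟩
  inv_mem' := by
    intro g hg i f hf
    exact ⟨(hg i f hf).2, (hg i f hf).1⟩

/-- `g` is congruent to `1 + D` modulo terms of order at least `s` -/
def Ap {p : ℕ} (s : ℕ) (D : Fin 3 → A p) (g : Au p) : Prop :=
  ∀ i : Fin 3, g (X i) - X i - D i ∈ M p s

/-- the vector field `D` applied to `f` -/
noncomputable def vf {p : ℕ} (D : Fin 3 → A p) (f : A p) : A p :=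
  ∑ j : Fin 3, D j * pderiv (ZMod p) j f

/-- bracket of vector fields -/
noncomputable def br {p : ℕ} (D E : Fin 3 → A p) : Fin 3 → A p :=
  fun i => vf D (E i) - vf E (D i)

/-- Hasse derivatives -/
noncomputable def hs {p : ℕ} (b : Fin 3) (r : ℕ) (f : A p) : A p :=
  fun α => (Nat.choose (α b + r) r : ZMod p) * coeff (α + Finsupp.single b r) f

/-- `g` is given by polynomials -/
def Poly {p : ℕ} (g : Au p) : Prop :=
  ∀ i : Fin 3, ∃ P : MvPolynomial (Fin 3) (ZMod p), g (X i) = (P : A p)

/-- `g` adds `f` to the variable `b` and fixes the other variables -/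
def Tr {p : ℕ} (b : Fin 3) (f : A p) (g : Au p) : Prop :=
  g (X b) = X b + f ∧ ∀ i : Fin 3, i ≠ b → g (X i) = X i

/-- product of commutators -/
noncomputable def pc {p : ℕ} {n : ℕ} (u h : Fin n → Au p) : Au p :=
  (List.ofFn fun i => u i * h i * (u i)⁻¹ * (h i)⁻¹).prod

/-! ### the classes of groups in the question -/

/-- residually finite -/
def RF (G : Type) [Group G] : Prop :=
  ∀ g : G, g ≠ 1 → ∃ N : Subgroup G, N.Normal ∧ N.FiniteIndex ∧ g ∉ N

/-- just infinite -/
def JI (G : Type) [Group G] : Prop :=
  Infinite G ∧ ∀ N : Subgroup G, N.Normal → N ≠ ⊥ → N.FiniteIndex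

/-- hereditarily just infinite -/
def HJI (G : Type) [Group G] : Prop :=
  ∀ H : Subgroup G, H.FiniteIndex → JI H

/-- `G` admits a self-similar action on the rooted tree of finite words over a finite alphabet -/
def SelfSimilar (G : Type) [Group G] : Prop :=
  ∃ (X : Type) (_ : Fintype X), 2 ≤ Fintype.card X ∧
    ∃ act : G →* Equiv.Perm (List X), Function.Injective act ∧
      ∀ (g : G) (x : X), ∃ (y : X) (h : G), ∀ w : List X, act g (x :: w) = y :: act h w

/-- `G` is linear over some field -/
def Linear (G : Type) [Group G] : Prop :=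
  ∃ (K : Type) (_ : Field K) (n : ℕ) (f : G →* GL (Fin n) K), Function.Injective f

end Pool.Agent.N206.HJ
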