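import Pool.Agent.N206.HJ.Stm

set_option autoImplicit false

namespace Pool.Agent.N206.HJ

open MvPowerSeries

theorem idx3 (a b c : Fin 3) (hab : a ≠ b) (hac : a ≠ c) (hbc : b ≠ c) (i : Fin 3) :
    i = a ∨ i = b ∨ i = c := by
  revert a b c i; decide

theorem deg3 (a b c : Fin 3) (hab : a ≠ b) (hac : a ≠ c) (hbc : b ≠ c) (α : Fin 3 →₀ ℕ) :
    α.degree = α a + α b + α c := by
  rw [Finsupp.degree_eq_sum, Fin.sum_univ_three]
  revert hab hac hbc
  fin_cases a <;> fin_cases b <;> fin_cases c <;> simp <;> omega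

theorem t_EXTR (p : ℕ) [Fact p.Prime] : S_EXTR p := by
  intro D hD a b c hab hac hbc
  classical
  -- the least degree
  have hex : ∃ t : ℕ, ∃ α : Fin 3 →₀ ℕ, α.degree = t ∧ ∃ e, coeff α (D e) ≠ 0 := by
    by_contra hcon
    push Not at hcon
    apply hD
    funext e
    ext α
    exact hcon _ α rfl e
  obtain ⟨t, ht, htmin⟩ : ∃ t : ℕ, (∃ α : Fin 3 →₀ ℕ, α.degree = t ∧ ∃ e, coeff α (D e) ≠ 0) ∧
      ∀ α : Fin 3 →₀ ℕ, α.degree < t → ∀ e, coeff α (D e) = 0 := by
    refine ⟨Nat.find hex, Nat.find_spec hex, fun α hα e => ?_⟩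
    by_contra h
    exact Nat.find_min hex hα ⟨α, rfl, e, h⟩
  -- the maximal exponent of b
  let Pb : ℕ → Prop := fun j => ∃ α : Fin 3 →₀ ℕ, α.degree = t ∧ α b = j ∧ ∃ e, coeff α (D e) ≠ 0
  have hPb : ∀ j, Pb j → j ≤ t := by
    rintro j ⟨α, h1, h2, _⟩
    rw [deg3 a b c hab hac hbc] at h1
    omega
  obtain ⟨α0, hα0, hα0e⟩ := ht
  have hj1 : Pb (Nat.findGreatest Pb t) :=
    Nat.findGreatest_spec (P := Pb) (hPb _ ⟨α0, hα0, rfl, hα0e⟩) ⟨α0, hα0, rfl, hα0e⟩
  have hj2 : ∀ j', Nat.findGreatest Pb t < j' → ¬ Pb j' := by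
    intro j' hj' h
    exact Nat.findGreatest_is_greatest hj' (hPb _ h) h
  generalize hj : Nat.findGreatest Pb t = j at hj1 hj2
  -- the maximal exponent of c
  let Pc : ℕ → Prop := fun k => ∃ α : Fin 3 →₀ ℕ, α.degree = t ∧ α b = j ∧ α c = k ∧
    ∃ e, coeff α (D e) ≠ 0
  have hPc : ∀ k, Pc k → k ≤ t := by
    rintro k ⟨α, h1, _, h2, _⟩
    rw [deg3 a b c hab hac hbc] at h1
    omega
  obtain ⟨α1, hα1, hα1b, hα1e⟩ := hj1
  have hk1 : Pc (Nat.findGreatest Pc t) :=
    Nat.findGreatest_spec (P := Pc) (hPc _ ⟨α1, hα1, hα1b, rfl, hα1e⟩) ⟨α1, hα1, hα1b, rfl, hα1e⟩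
  have hk2 : ∀ k', Nat.findGreatest Pc t < k' → ¬ Pc k' := by
    intro k' hk' h
    exact Nat.findGreatest_is_greatest hk' (hPc _ h) h
  generalize hk : Nat.findGreatest Pc t = k at hk1 hk2
  obtain ⟨α, hα, hαb, hαc, e0, hαe⟩ := hk1
  have hdeg : t = α a + j + k := by
    rw [← hα, deg3 a b c hab hac hbc, hαb, hαc]
  refine ⟨j, k, α a, fun e => coeff α (D e), ?_, ?_⟩
  · intro h
    exact hαe (congrFun h e0)
  intro e β hβ
  have hcf : coeff β (hs b j (hs c k (D e))) = (Nat.choose (β b + j) j : ZMod p) *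
      ((Nat.choose (β c + k) k : ZMod p) *
        coeff (β + Finsupp.single b j + Finsupp.single c k) (D e)) := by
    rw [hs_coeff, hs_coeff]
    have : (β + Finsupp.single b j) c = β c := by
      rw [Finsupp.add_apply, Finsupp.single_eq_of_ne (Ne.symm hbc), add_zero]
    rw [this]
  have hγd : (β + Finsupp.single b j + Finsupp.single c k).degree = β.degree + j + k := by
    have h1 : (β + Finsupp.single b j + Finsupp.single c k).degree =
      (β + Finsupp.single b j).degree + (Finsupp.single c k).degree := map_add _ _ _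
    have h2 : (β + Finsupp.single b j).degree = β.degree + (Finsupp.single b j).degree :=
      map_add _ _ _
    rw [h1, h2, Finsupp.degree_single, Finsupp.degree_single]
  have hγb : (β + Finsupp.single b j + Finsupp.single c k) b = β b + j := by
    rw [Finsupp.add_apply, Finsupp.add_apply, Finsupp.single_eq_same,
      Finsupp.single_eq_of_ne hbc, add_zero]
  have hγc : (β + Finsupp.single b j + Finsupp.single c k) c = β c + k := by
    rw [Finsupp.add_apply, Finsupp.add_apply, Finsupp.single_eq_same,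
      Finsupp.single_eq_of_ne (Ne.symm hbc), add_zero]
  rw [map_sub, hcf, coeff_C_mul, coeff_X_pow]
  by_cases h0 : β = Finsupp.single a (α a)
  · rw [if_pos h0, mul_one]
    have hb0 : β b = 0 := by rw [h0, Finsupp.single_eq_of_ne (Ne.symm hab)]
    have hc0 : β c = 0 := by rw [h0, Finsupp.single_eq_of_ne (Ne.symm hac)]
    have hγ : β + Finsupp.single b j + Finsupp.single c k = α := by
      ext i
      rcases idx3 a b c hab hac hbc i with rfl | rfl | rfl
      · rw [Finsupp.add_apply, Finsupp.add_apply, Finsupp.single_eq_of_ne hab,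
          Finsupp.single_eq_of_ne hac, h0, Finsupp.single_eq_same, add_zero, add_zero]
      · rw [hγb, hb0, hαb, zero_add]
      · rw [hγc, hc0, hαc, zero_add]
    rw [hγ, hb0, hc0, zero_add, zero_add, Nat.choose_self, Nat.choose_self]
    simp
  · rw [if_neg h0, mul_zero, sub_zero]
    have hz : coeff (β + Finsupp.single b j + Finsupp.single c k) (D e) = 0 := by
      by_contra hne
      have hge : t ≤ β.degree + j + k := by
        by_contra hlt
        exact hne (htmin _ (by rw [hγd]; omega) e)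
      have hβd : β.degree = α a := by omega
      have hb0 : β b = 0 := by
        by_contra hb
        exact hj2 (β b + j) (by omega) ⟨_, by rw [hγd]; omega, hγb, e, hne⟩
      have hc0 : β c = 0 := by
        by_contra hc
        exact hk2 (β c + k) (by omega) ⟨_, by rw [hγd]; omega, by rw [hγb]; omega, hγc, e, hne⟩
      apply h0
      rw [deg3 a b c hab hac hbc] at hβd
      ext i
      rcases idx3 a b c hab hac hbc i with rfl | rfl | rfl
      · rw [Finsupp.single_eq_same]; omega
      · rw [Finsupp.single_eq_of_ne (Ne.symm hab), hb0]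
      · rw [Finsupp.single_eq_of_ne (Ne.symm hac), hc0]
    rw [hz, mul_zero, mul_zero]

end Pool.Agent.N206.HJ
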