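import Pool.Agent.N206.HJ.Stm

set_option autoImplicit false

namespace Pool.Agent.N206.HJ

open MvPowerSeries

/-- the field `d_e` -/
noncomputable def fc (p : ℕ) (e : Fin 3) : Fin 3 → A p := fun i => if i = e then 1 else 0

/-- the field `x_c d_e` -/
noncomputable def fx (p : ℕ) (c e : Fin 3) : Fin 3 → A p := fun i => if i = e then X c else 0

theorem vf_fc {p : ℕ} (e : Fin 3) (f : A p) : vf (fc p e) f = pderiv (ZMod p) e f := by
  rw [vf, Finset.sum_eq_single e]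
  · simp [fc]
  · intro b _ hb
    simp [fc, hb]
  · intro h; exact absurd (Finset.mem_univ e) h

theorem vf_fx {p : ℕ} (c e : Fin 3) (f : A p) : vf (fx p c e) f = X c * pderiv (ZMod p) e f := by
  rw [vf, Finset.sum_eq_single e]
  · simp [fx]
  · intro b _ hb
    simp [fx, hb]
  · intro h; exact absurd (Finset.mem_univ e) h

theorem vf_one {p : ℕ} (D : Fin 3 → A p) : vf D 1 = 0 := by
  rw [vf]
  apply Finset.sum_eq_zero
  intro j _
  have : pderiv (ZMod p) j (1 : A p) = 0 := Derivation.map_one_eq_zero _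
  rw [this, mul_zero]

theorem vf_zero {p : ℕ} (D : Fin 3 → A p) : vf D 0 = 0 := by
  rw [vf]
  apply Finset.sum_eq_zero
  intro j _
  rw [map_zero, mul_zero]

/-- the polynomial fields used -/
def IsL {p : ℕ} (E : Fin 3 → A p) : Prop := (∃ e, E = fc p e) ∨ ∃ c e, E = fx p c e

theorem exists_el {p : ℕ} (h1 : S_EXIST p) (a : Fin 3) (m : ℕ) (hm : 2 ≤ m) {E : Fin 3 → A p}
    (hE : IsL E) : ∃ v ∈ Ga p (m - 1), Poly v ∧ ∀ i, v (X i) = X i + X a ^ m * E i := by
  obtain ⟨g, hg, hgX⟩ := h1 (m - 1) (by omega) (fun i => X a ^ m * E i) (by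
    intro i
    have e : m - 1 + 1 = m := by omega
    rw [e]
    exact M_mul_right (Xpow_mem a m))
  refine ⟨g, hg, ?_, hgX⟩
  intro i
  have hP : ∃ P : MvPolynomial (Fin 3) (ZMod p), E i = (P : A p) := by
    rcases hE with ⟨e, rfl⟩ | ⟨c, e, rfl⟩
    · by_cases hi : i = e
      · exact ⟨1, by simp [fc, hi]⟩
      · exact ⟨0, by simp [fc, hi]⟩
    · by_cases hi : i = e
      · exact ⟨MvPolynomial.X c, by simp [fx, hi]⟩
      · exact ⟨0, by simp [fx, hi]⟩
  obtain ⟨P, hP⟩ := hP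
  refine ⟨MvPolynomial.X i + MvPolynomial.X a ^ m * P, ?_⟩
  rw [hgX i, hP]
  simp

theorem step1 {p : ℕ} (h2 : S_DET2 p) {g : Au p} (hg : g ∈ Ga p 1) (hg1 : g ≠ 1) :
    ∃ E : Fin 3 → A p, IsL E ∧ (fun i => g (vf E (g⁻¹ (X i))) - E i) ≠ 0 := by
  by_contra hcon
  push Not at hcon
  apply hg1
  apply h2.1 g hg 1 (Subgroup.one_mem _)
  intro c
  have hc := congrFun (hcon (fc p c) (Or.inl ⟨c, rfl⟩)) c
  have hx := congrFun (hcon (fx p c c) (Or.inr ⟨c, c, rfl⟩)) c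
  simp only [Pi.zero_apply] at hc hx
  rw [vf_fc, sub_eq_zero] at hc
  rw [vf_fx, map_mul, hc, sub_eq_zero] at hx
  have e1 : fc p c c = 1 := by simp [fc]
  have e2 : fx p c c c = X c := by simp [fx]
  rw [e1, e2, mul_one] at hx
  rw [hx]; rfl

theorem step2 {p : ℕ} {D : Fin 3 → A p} (hD : D ≠ 0) : ∃ E : Fin 3 → A p, IsL E ∧ br E D ≠ 0 := by
  by_contra hcon
  push Not at hcon
  have hd : ∀ f i, pderiv (ZMod p) f (D i) = 0 := by
    intro f i
    have h := congrFun (hcon (fc p f) (Or.inl ⟨f, rfl⟩)) i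
    simp only [Pi.zero_apply] at h
    rw [br, vf_fc] at h
    have e : vf D (fc p f i) = 0 := by
      rw [fc]
      split_ifs
      · exact vf_one D
      · exact vf_zero D
    rw [e, sub_zero] at h
    exact h
  apply hD
  funext e
  have h := congrFun (hcon (fx p e e) (Or.inr ⟨e, e, rfl⟩)) e
  simp only [Pi.zero_apply] at h
  rw [br, vf_fx, hd, mul_zero, zero_sub, neg_eq_zero] at h
  have e2 : fx p e e e = X e := by simp [fx]
  rw [e2, vf_X] at h
  rw [h]; rfl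

theorem t_FA (p : ℕ) [Fact p.Prime] (h1 : S_EXIST p) (h2 : S_DET2 p) (h3 : S_START p)
    (h4 : S_BR p) : S_FA p := by
  intro k N hk hN hNb hCl a
  obtain ⟨g, hgN, hg1⟩ : ∃ g ∈ N, g ≠ 1 := by
    by_contra hcon
    push Not at hcon
    exact hNb (N.eq_bot_iff_forall.mpr hcon)
  have hg := hN hgN
  obtain ⟨E, hE, hD0⟩ := step1 h2 hg hg1
  obtain ⟨E1, hE1, hD⟩ := step2 hD0
  refine ⟨_, hD, ?_⟩
  have hp1 : 1 < p := (Fact.out : p.Prime).one_lt
  intro R
  refine ⟨R + k + 2, fun ν hν hpν => ⟨ν + R + k + 3, fun m hm hpm => ?_⟩⟩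
  obtain ⟨v, hv, hvP, hvX⟩ := exists_el h1 a m (by omega) hE
  have hpow : ν + R ≤ p ^ (ν + R + k + 3) :=
    le_trans (by omega) (Nat.lt_pow_self hp1 (n := ν + R + k + 3)).le
  have hst := h3 g v a E m (ν + R + k + 3) (ν + R) hg (Ga_anti (by omega) hv) hpm hpow (by omega)
    hvX
  have hu : g * v * g⁻¹ * v⁻¹ ∈ N := by
    have := N.mul_mem hgN (hCl v (Ga_anti (by omega) hv) hvP g⁻¹ (N.inv_mem hgN))
    simpa [mul_assoc] using this
  obtain ⟨h, hh, hhP, hhX⟩ := exists_el h1 a ν (by omega) hE1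
  have hpm1 : p ∣ m := dvd_trans (dvd_pow_self p (by omega)) hpm
  have hb := h4 (g * v * g⁻¹ * v⁻¹) h a (fun i => g (vf E (g⁻¹ (X i))) - E i) E1 m ν R (hN hu)
    (Ga_anti (by omega) hh) hpm1 hpν (by omega) (by omega) hhX (by
      have e : m + ν + R = m + (ν + R) := by omega
      rw [e]; exact hst)
  refine ⟨_, ?_, hb⟩
  exact N.mul_mem (hCl h (Ga_anti (by omega) hh) hhP _ hu) (N.inv_mem hu)

end Pool.Agent.N206.HJ
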