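import Pool.Agent.N206.HJ.Stm

set_option autoImplicit false

namespace Pool.Agent.N206.HJ

open MvPowerSeries

theorem Ev.and {p : ℕ} {Q Q' : ℕ → Prop} (h : Ev p Q) (h' : Ev p Q') :
    Ev p (fun e => Q e ∧ Q' e) := by
  obtain ⟨n0, hn⟩ := h
  obtain ⟨n1, hn'⟩ := h'
  refine ⟨max n0 n1, fun ν hν hpν => ?_⟩
  obtain ⟨P0, hP⟩ := hn ν (le_trans (le_max_left _ _) hν) hpν
  obtain ⟨P1, hP'⟩ := hn' ν (le_trans (le_max_right _ _) hν) hpν
  refine ⟨max P0 P1, fun m hm hpm => ⟨hP m (le_trans (le_max_left _ _) hm) ?_,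
    hP' m (le_trans (le_max_right _ _) hm) ?_⟩⟩
  · exact dvd_trans (pow_dvd_pow p (le_max_left _ _)) hpm
  · exact dvd_trans (pow_dvd_pow p (le_max_right _ _)) hpm

theorem Ev.mono {p : ℕ} {Q Q' : ℕ → Prop} (h : Ev p Q) (hQ : ∀ e, Q e → Q' e) : Ev p Q' := by
  obtain ⟨n0, hn⟩ := h
  refine ⟨n0, fun ν hν hpν => ?_⟩
  obtain ⟨P0, hP⟩ := hn ν hν hpν
  exact ⟨P0, fun m hm hpm => hQ _ (hP m hm hpm)⟩

theorem Ev.large {p : ℕ} (C : ℕ) : Ev p (fun e => C ≤ e) :=
  ⟨C, fun ν hν _ => ⟨0, fun m _ _ => by omega⟩⟩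

theorem Ev.shift {p : ℕ} {Q : ℕ → Prop} {s : ℕ} (hs : p ∣ s) (h : Ev p Q) :
    Ev p (fun e => Q (e + s)) := by
  obtain ⟨n0, hn⟩ := h
  refine ⟨n0, fun ν hν hpν => ?_⟩
  obtain ⟨P0, hP⟩ := hn (ν + s) (by omega) (dvd_add hpν hs)
  refine ⟨P0, fun m hm hpm => ?_⟩
  have := hP m hm hpm
  rwa [← add_assoc] at this

theorem Ev.unshift {p : ℕ} {Q : ℕ → Prop} {s : ℕ} (hs : p ∣ s) (h : Ev p (fun e => Q (e + s))) :
    Ev p Q := by
  obtain ⟨n0, hn⟩ := h
  refine ⟨n0 + s, fun ν hν hpν => ?_⟩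
  obtain ⟨P0, hP⟩ := hn (ν - s) (by omega) (Nat.dvd_sub hpν hs)
  refine ⟨P0, fun m hm hpm => ?_⟩
  have h1 : Q (m + (ν - s) + s) := hP m hm hpm
  have e : m + (ν - s) + s = m + ν := by omega
  rwa [e] at h1

theorem Ev.all {p : ℕ} (n : ℕ) {Q : ℕ → ℕ → Prop} (h : ∀ s < n, Ev p (Q s)) :
    Ev p (fun e => ∀ s < n, Q s e) := by
  induction n with
  | zero => exact ⟨0, fun ν _ _ => ⟨0, fun m _ _ s hs => absurd hs (Nat.not_lt_zero _)⟩⟩
  | succ n ih =>
    refine ((ih fun s hs => h s (Nat.lt_succ_of_lt hs)).and (h n (Nat.lt_succ_self n))).mono ?_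
    rintro e ⟨h1, h2⟩ s hs
    rcases Nat.lt_succ_iff_lt_or_eq.mp hs with h3 | rfl
    · exact h1 s h3
    · exact h2

theorem Ap_congr {p s : ℕ} {D E : Fin 3 → A p} {g : Au p} (h : Ap s D g)
    (hDE : ∀ i, D i - E i ∈ M p s) : Ap s E g := by
  intro i
  have e : g (X i) - X i - E i = (g (X i) - X i - D i) + (D i - E i) := by ring
  rw [e]
  exact Ideal.add_mem _ (h i) (hDE i)

theorem hs_zero {p : ℕ} (b : Fin 3) (f : A p) : hs b 0 f = f := by
  ext α
  rw [hs_coeff]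
  simp

/-- finite products -/
theorem prod_Ap {p : ℕ} (h2 : S_ADD p) {N : Subgroup (Au p)} (hN : N ≤ Ga p 1) {m R : ℕ}
    (hm : 2 ≤ m) (hR : R + 1 ≤ m) (n : ℕ) (F : ℕ → Fin 3 → A p) (hF : ∀ s < n, ∀ i, F s i ∈ M p m)
    (h : ∀ s < n, ∃ u ∈ N, Ap (m + R) (F s) u) (D : Fin 3 → A p) (hD : ∀ i, D i ∈ M p m)
    (hu : ∃ u ∈ N, Ap (m + R) D u) :
    ∃ u ∈ N, Ap (m + R) (fun i => D i - ∑ s ∈ Finset.range n, F s i) u := by
  induction n with
  | zero => simpa using hu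
  | succ n ih =>
    obtain ⟨u, huN, hu1⟩ := ih (fun s hs => hF s (by omega)) (fun s hs => h s (by omega))
    obtain ⟨v, hvN, hv1⟩ := h n (Nat.lt_succ_self n)
    have hFn := hF n (Nat.lt_succ_self n)
    have hv2 := (h2 v v (F n) (F n) m R (hN hvN) (hN hvN) hFn hFn hm hR hv1 hv1).2
    have hsum : ∀ i, D i - ∑ s ∈ Finset.range n, F s i ∈ M p m := fun i =>
      Ideal.sub_mem _ (hD i) (Ideal.sum_mem _ fun s hs => hF s (by
        have := Finset.mem_range.mp hs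
        omega) i)
    have hv3 := (h2 u v⁻¹ (fun i => D i - ∑ s ∈ Finset.range n, F s i) (fun i => - F n i) m R
      (hN huN) (hN (N.inv_mem hvN)) hsum (fun i => neg_mem (hFn i)) hm hR hu1 hv2).1
    refine ⟨u * v⁻¹, N.mul_mem huN (N.inv_mem hvN), Ap_congr hv3 fun i => ?_⟩
    rw [Finset.sum_range_succ]
    have e : D i - ∑ s ∈ Finset.range n, F s i + - F n i -
      (D i - (∑ s ∈ Finset.range n, F s i + F n i)) = 0 := by ring
    rw [e]
    exact Ideal.zero_mem _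

/-- elementary automorphisms in deep congruence subgroups -/
theorem exists_tr {p : ℕ} (h4 : S_EXIST p) (a b : Fin 3) (N : ℕ) (hN : 2 ≤ N) :
    ∃ t ∈ Ga p (N - 1), Poly t ∧ Tr b (X a ^ N) t := by
  obtain ⟨g, hg, hgX⟩ := h4 (N - 1) (by omega) (fun i => if i = b then X a ^ N else 0) (by
    intro i
    split_ifs
    · have e : N - 1 + 1 = N := by omega
      rw [e]; exact Xpow_mem a N
    · exact Ideal.zero_mem _)
  refine ⟨g, hg, ?_, ?_, ?_⟩
  · intro i
    by_cases hi : i = b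
    · refine ⟨MvPolynomial.X b + MvPolynomial.X a ^ N, ?_⟩
      rw [hgX i, if_pos hi, hi]
      simp
    · refine ⟨MvPolynomial.X i, ?_⟩
      rw [hgX i, if_neg hi]
      simp
  · rw [hgX b, if_pos rfl]
  · intro i hi
    rw [hgX i, if_neg hi, add_zero]

theorem t_FB (p : ℕ) [Fact p.Prime] (h1 : S_EXIST p) (h2 : S_ADD p) (h3 : S_CONJ p)
    (h4 : S_HT p) : S_FB p := by
  intro k N hk hN hCl a b D r hab hD
  induction r using Nat.strong_induction_on with
  | _ r ih =>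
    rcases Nat.eq_zero_or_pos r with rfl | hr
    · intro R
      refine (hD R).mono ?_
      rintro e ⟨u, hu, hu1⟩
      refine ⟨u, hu, ?_⟩
      simp only [hs_zero]
      exact hu1
    · intro R
      obtain ⟨n, hn⟩ : ∃ n, n = p * (R + k + 2) := ⟨_, rfl⟩
      have hp1 : 1 ≤ p := (Fact.out : p.Prime).one_lt.le
      have hpn : p ∣ n := ⟨_, hn⟩
      have hnR : R + k + 2 ≤ n := by
        rw [hn]
        exact Nat.le_mul_of_pos_left _ hp1
      obtain ⟨R1, hR1⟩ : ∃ R1, R1 = R + n * r := ⟨_, rfl⟩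
      have hA := (hD R1).and (Ev.large (p := p) (R1 + 2))
      have hB : Ev p (fun e => ∀ s < r, ∃ u ∈ N, Ap (e + R1)
          (fun i => X a ^ e * (X a ^ (n * s) * hs b s (D i))) u) := by
        apply Ev.all
        intro s hs'
        refine ((ih s hs' R1).shift (dvd_mul_of_dvd_left hpn s)).mono ?_
        rintro e ⟨u, hu, hu1⟩
        refine ⟨u, hu, fun i => ?_⟩
        have h5 : u (X i) - X i - X a ^ (e + n * s) * hs b s (D i) ∈ M p (e + n * s + R1) := hu1 i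
        rw [pow_add, mul_assoc] at h5
        exact M_anti (by omega) h5
      have hC : Ev p (fun e => ∃ u ∈ N, Ap ((e + n * r) + R)
          (fun i => X a ^ (e + n * r) * hs b r (D i)) u) := by
        refine (hA.and hB).mono ?_
        rintro e ⟨⟨⟨u, hu, hu1⟩, he⟩, hB'⟩
        obtain ⟨h, hh, hPoly, hTr⟩ := exists_tr h1 a b n (by omega)
        have hhk : h ∈ Ga p k := Ga_anti (by omega) hh
        have hh1 : h ∈ Ga p 1 := Ga_anti (by omega) hh
        have hconj := h3 u h a b D e n R1 hab (hN hu) hh1 hpn (by omega) he hTr hu1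
        have hcN := hCl h hhk hPoly u hu
        have hmem : ∀ f : A p, X a ^ e * f ∈ M p e := fun f => M_mul_right (Xpow_mem a e)
        obtain ⟨w, hw, hw1⟩ := prod_Ap h2 hN (m := e) (R := R1) (by omega) (by omega) r
          (fun s i => X a ^ e * (X a ^ (n * s) * hs b s (D i))) (fun s _ i => hmem _) hB'
          (fun i => X a ^ e * h (D i)) (fun i => hmem _) ⟨_, hcN, hconj⟩
        refine ⟨w, hw, ?_⟩
        have e1 : e + R1 = (e + n * r) + R := by omega
        rw [e1] at hw1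
        refine Ap_congr hw1 fun i => ?_
        obtain ⟨ρ, hρ⟩ := h4 h a b n hab (by omega) hh1 hTr (D i) r
        rw [hρ, Finset.sum_range_succ, ← Finset.mul_sum]
        have e2 : X a ^ e * (∑ s ∈ Finset.range r, X a ^ (n * s) * hs b s (D i) +
            X a ^ (n * r) * hs b r (D i) + X a ^ (n * (r + 1)) * ρ) -
            X a ^ e * ∑ s ∈ Finset.range r, X a ^ (n * s) * hs b s (D i) -
            X a ^ (e + n * r) * hs b r (D i) = X a ^ (e + n * (r + 1)) * ρ := by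
          rw [pow_add, pow_add]; ring
        rw [e2]
        apply M_mul_right
        refine M_anti ?_ (Xpow_mem a (e + n * (r + 1)))
        rw [Nat.mul_succ]
        omega
      exact hC.unshift (Q := fun e => ∃ u ∈ N, Ap (e + R) (fun i => X a ^ e * hs b r (D i)) u)
        (dvd_mul_of_dvd_left hpn r)

end Pool.Agent.N206.HJ
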