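import Pool.Agent.N206.HJ.Stm

set_option autoImplicit false

namespace Pool.Agent.N206.HJ

open MvPowerSeries

/-- the elementary automorphisms `x_1 -> x_1 + x_0^N` -/
theorem exists_t {p : ℕ} [Fact p.Prime] (h4 : S_EXIST p) (N : ℕ) (hN : 2 ≤ N) :
    ∃ t ∈ Ga p (N - 1), Poly t ∧ Tr 1 (X 0 ^ N) t := by
  obtain ⟨g, hg, hgX⟩ := h4 (N - 1) (by omega) (fun i => if i = 1 then X 0 ^ N else 0) (by
    intro i
    split_ifs
    · have e : N - 1 + 1 = N := by omega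
      rw [e]; exact Xpow_mem 0 N
    · exact Ideal.zero_mem _)
  refine ⟨g, hg, ?_, ?_, ?_⟩
  · intro i
    by_cases hi : i = 1
    · refine ⟨MvPolynomial.X 1 + MvPolynomial.X 0 ^ N, ?_⟩
      rw [hgX i, if_pos hi, hi]
      simp
    · refine ⟨MvPolynomial.X i, ?_⟩
      rw [hgX i, if_neg hi]
      simp
  · rw [hgX 1, if_pos rfl]
  · intro i hi
    rw [hgX i, if_neg hi, add_zero]

theorem Tr_unique {p : ℕ} (h5 : S_DET2 p) {b : Fin 3} {f : A p} {g h : Au p} (hg : g ∈ Ga p 1)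
    (hh : h ∈ Ga p 1) (h1 : Tr b f g) (h2 : Tr b f h) : g = h := by
  apply h5.1 g hg h hh
  intro i
  by_cases hi : i = b
  · rw [hi, h1.1, h2.1]
  · rw [h1.2 i hi, h2.2 i hi]

theorem t_FIN2 (p : ℕ) [Fact p.Prime] (h1 : S_KEY p) (h2 : S_GRP p) (h3 : S_SS) (h4 : S_EXIST p)
    (h5 : S_DET2 p) : S_FIN2 p := by
  intro φ G0 hG hφ1 hφ2
  have hX : ∀ N : ℕ, (X 0 ^ N : A p) ∉ M p (N + 1) := by
    intro N h
    have h6 := h (Finsupp.single 0 N) (by rw [Finsupp.degree_single]; omega)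
    classical
    rw [coeff_X_pow, if_pos rfl] at h6
    exact one_ne_zero h6
  choose! t ht1 ht2 ht3 using fun N hN => exists_t h4 N hN
  have htG : ∀ N, 2 ≤ N → t N ∈ G0 := fun N hN =>
    hG.poly _ (Ga_anti (by omega) (ht1 N hN)) (ht2 N hN)
  let H : Subgroup G0 := (Ga p 2).subgroupOf G0
  let φ0 : H →* G0 :=
    { toFun := fun g => ⟨φ ⟨(g : G0), g.2⟩, hG.phi _ (g : G0).2⟩
      map_one' := by
        apply Subtype.ext
        show φ _ = 1
        rw [← map_one φ]; rfl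
      map_mul' := by
        intro x y
        apply Subtype.ext
        show φ _ = φ _ * φ _
        rw [← map_mul]; rfl }
  have hcoe : ∀ (g : G0) (hg : g ∈ H) (hg' : (g : Au p) ∈ Ga p 2),
      ((φ0 ⟨g, hg⟩ : G0) : Au p) = φ ⟨(g : Au p), hg'⟩ := fun g hg hg' => rfl
  clear_value φ0
  have hfi : H.FiniteIndex := by
    constructor
    show (Ga p 2).relIndex G0 ≠ 0
    intro h0
    exact h2.2.2 2 (Subgroup.relIndex_eq_zero_of_le_right hG.le h0)
  have hnot : t 2 ∉ Ga p 2 := by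
    intro h
    have h6 := Ga_X h 1
    rw [(ht3 2 le_rfl).1] at h6
    have e : (X 1 + X 0 ^ 2 - X 1 : A p) = X 0 ^ 2 := by ring
    rw [e] at h6
    exact hX 2 h6
  have htop : H ≠ ⊤ := by
    intro h
    have h6 : (⟨t 2, htG 2 le_rfl⟩ : G0) ∈ H := by rw [h]; trivial
    exact hnot h6
  refine h3 G0 H φ0 hfi htop ?_
  intro K hKn hKH hKφ
  by_contra hKb
  have hKe : ∃ J : ℕ, ∀ g ∈ G0, g ∈ Ga p J → g ∈ K.map G0.subtype := by
    refine h1 φ G0 hG 1 le_rfl (K.map G0.subtype) ?_ ?_ ?_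
    · rintro _ ⟨x, _, rfl⟩
      exact x.2
    · intro hb
      apply hKb
      rw [Subgroup.map_eq_bot_iff_of_injective _ G0.subtype_injective] at hb
      exact hb
    · rintro h hh _ _ ⟨x, hx, rfl⟩
      have hc := hKn.conj_mem x hx ⟨h, hh⟩
      have hc2 := Subgroup.mem_map_of_mem G0.subtype hc
      rw [map_mul, map_mul, map_inv] at hc2
      exact hc2
  obtain ⟨J, hJ⟩ := hKe
  have hmem : ∀ N (hN : 2 ≤ N), J + 2 ≤ N → (⟨t N, htG N hN⟩ : G0) ∈ K := by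
    intro N hN hNJ
    obtain ⟨x, hx, hxe⟩ := hJ (t N) (htG N hN) (Ga_anti (by omega) (ht1 N hN))
    have : x = ⟨t N, htG N hN⟩ := Subtype.ext hxe
    rw [← this]; exact hx
  have hstep : ∀ N (hN : 2 ≤ N), (⟨t (N + 1), htG (N + 1) (by omega)⟩ : G0) ∈ K →
      (⟨t N, htG N hN⟩ : G0) ∈ K := by
    intro N hN hK'
    have hH := hKH hK'
    have hH' : t (N + 1) ∈ Ga p 2 := hH
    have h7 := hKφ ⟨_, hH⟩ hK'
    have h8 : φ ⟨t (N + 1), hH'⟩ = t N := by
      have h9 := hφ2 (N + 1) (by omega) ⟨t (N + 1), hH'⟩ (ht3 (N + 1) (by omega))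
      rw [Nat.add_sub_cancel] at h9
      exact Tr_unique h5 (hφ1 2 le_rfl _ hH') (Ga_anti (by omega) (ht1 N hN)) h9 (ht3 N hN)
    have h10 : φ0 ⟨⟨t (N + 1), htG (N + 1) (by omega)⟩, hH⟩ = ⟨t N, htG N hN⟩ := by
      apply Subtype.ext
      rw [hcoe _ hH hH']
      exact h8
    rw [h10] at h7
    exact h7
  have hdesc : ∀ d N (hN : 2 ≤ N), N + d = J + 2 → (⟨t N, htG N hN⟩ : G0) ∈ K := by
    intro d
    induction d with
    | zero => intro N hN h; exact hmem N hN (by omega)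
    | succ d ih =>
      intro N hN h
      exact hstep N hN (ih (N + 1) (by omega) (by omega))
  have h10 := hKH (hdesc J 2 le_rfl (by omega))
  exact hnot h10

end Pool.Agent.N206.HJ
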