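import Pool.Agent.N206.HJ.Stm

set_option autoImplicit false

namespace Pool.Agent.N206.HJ

open MvPowerSeries

theorem t_FIN3 (p : ℕ) [Fact p.Prime] (h1 : S_LIN0) (h2 : S_LINP) (h3 : S_UNB p) :
    S_FIN3 p := by
  rintro φ G0 hG ⟨K, _, n, f, hf⟩
  by_cases hp : (p : K) = 0
  · have hch : CharP K p := by
      have hpp : p.Prime := Fact.out
      have : ringChar K ∣ p := (ringChar.spec K p).mp hp
      rcases (Nat.dvd_prime hpp).mp this with h | h
      · exfalso
        have h0 : ((1 : ℕ) : K) = 0 := (ringChar.spec K 1).mpr (by rw [h])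
        simp at h0
      · exact ringChar.of_eq h
    obtain ⟨P, hP1, hPp, hPf, hPg, hPn⟩ := h3.1 n
    have hle : P ≤ G0 := fun g hg => hG.poly g (hP1 hg) (hPp g hg)
    apply hPn
    exact h2 p K n (Au p) P (f.comp (Subgroup.inclusion hle)) hPg
      (hf.comp (Subgroup.inclusion_injective hle))
  · obtain ⟨E, hE1, hEp, hEi, hEe, hEc⟩ := h3.2
    have hle : E ≤ G0 := fun g hg => hG.poly g (hE1 hg) (hEp g hg)
    letI : CommGroup E := { (inferInstance : Group E) with
      mul_comm := fun a b => Subtype.ext (hEc a a.2 b b.2) }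
    exact h1 p K n E (f.comp (Subgroup.inclusion hle)) hp
      (fun x => Subtype.ext (by
        have := hEe x x.2
        simpa using this)) hEi
      (hf.comp (Subgroup.inclusion_injective hle))

end Pool.Agent.N206.HJ
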