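import Pool.Agent.N206.HJ.Stm

set_option autoImplicit false

namespace Pool.Agent.N206.HJ

open MvPowerSeries

theorem Ev_ex {p : ℕ} [Fact p.Prime] {Q : ℕ → Prop} (h : Ev p Q) : ∃ e, 2 ≤ e ∧ Q e := by
  obtain ⟨ν0, h1⟩ := h
  have hp : 2 ≤ p := (Fact.out : p.Prime).two_le
  obtain ⟨P0, h2⟩ := h1 (p * (ν0 + 2)) (by nlinarith) (dvd_mul_right _ _)
  refine ⟨p ^ P0 * P0 + p * (ν0 + 2), by nlinarith [Nat.zero_le (p ^ P0 * P0)], ?_⟩
  apply h2
  · have : 1 ≤ p ^ P0 := Nat.one_le_pow _ _ (by omega)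
    nlinarith
  · exact dvd_mul_right _ _

theorem t_FIRST (p : ℕ) [Fact p.Prime] (h1 : S_FA p) (h2 : S_FB p) (h3 : S_EXTR p) :
    S_FIRST p := by
  intro k N hk hN hNb hCl a
  obtain ⟨b, c, hab, hac, hbc⟩ : ∃ b c : Fin 3, a ≠ b ∧ a ≠ c ∧ b ≠ c := by
    fin_cases a
    · exact ⟨1, 2, by decide, by decide, by decide⟩
    · exact ⟨0, 2, by decide, by decide, by decide⟩
    · exact ⟨0, 1, by decide, by decide, by decide⟩
  obtain ⟨D, hD, hN1⟩ := h1 k N hk hN hNb hCl a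
  obtain ⟨j, k', i, v, hv, he⟩ := h3 D hD a b c hab hac hbc
  have hN2 := h2 k N hk hN hCl a c D k' hac hN1
  have hN3 := h2 k N hk hN hCl a b _ j hab hN2
  obtain ⟨e, he2, u, hu, hA⟩ := Ev_ex (hN3 (i + 1))
  refine ⟨e + i, v, by omega, hv, u, hu, ?_⟩
  intro l
  have h4 : u (X l) - X l - C (v l) * X a ^ (e + i) =
      (u (X l) - X l - X a ^ e * hs b j (hs c k' (D l))) +
        X a ^ e * (hs b j (hs c k' (D l)) - C (v l) * X a ^ i) := by
    rw [pow_add]; ring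
  rw [h4]
  refine Ideal.add_mem _ (M_anti (by omega) (hA l)) ?_
  exact M_anti (by omega) (M_mul (Xpow_mem a e) (he l))

end Pool.Agent.N206.HJ
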