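import Pool.Agent.N206.HJ.Stm

set_option autoImplicit false

namespace Pool.Agent.N206.HJ

open MvPowerSeries

theorem t_KEY (p : ℕ) [Fact p.Prime] (h1 : S_FIRST p) (h2 : S_SECOND p) (h3 : S_SURJ p) :
    S_KEY p := by
  intro φ G0 hG k hk N hN hNb hcl
  have hN1 : N ≤ Ga p 1 := hN.trans hG.le
  have hCl : Cl p k N := by
    intro h hh hP u hu
    exact hcl h (hG.poly h (Ga_anti hk hh) hP) hh u hu
  have hall := h2 k N hk hN1 hCl (h1 k N hk hN1 hNb hCl)
  choose! w1 hw1 using fun (ac : Fin 3 × Fin 3) (h : ac.1 ≠ ac.2) => (hall ac.1 ac.2 h).1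
  choose! w2 hw2 using fun (ac : Fin 3 × Fin 3) (h : ac.1 ≠ ac.2) => (hall ac.1 ac.2 h).2
  let I := (Fin 3 × Fin 3) × Bool
  let n := Fintype.card I
  let eq : I ≃ Fin n := Fintype.equivFin I
  let uu : I → Au p := fun x => if x.1.1 = x.1.2 then 1 else if x.2 then w1 x.1 else w2 x.1
  have huN : ∀ x, uu x ∈ N := by
    intro x
    show (if x.1.1 = x.1.2 then (1 : Au p) else if x.2 then w1 x.1 else w2 x.1) ∈ N
    split_ifs with ha hb
    · exact one_mem _
    · exact (hw1 x.1 ha).1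
    · exact (hw2 x.1 ha).1
  let u : Fin n → Au p := fun i => uu (eq.symm i)
  have hu1 : ∀ i, u i ∈ Ga p 1 := fun i => hN1 (huN _)
  have hK : ∀ a c : Fin 3, a ≠ c → (∃ i, K1 a c (u i)) ∧ (∃ i, K2 a c (u i)) := by
    intro a c hac
    refine ⟨⟨eq ((a, c), true), ?_⟩, ⟨eq ((a, c), false), ?_⟩⟩
    · show K1 a c (uu (eq.symm (eq ((a, c), true))))
      rw [Equiv.symm_apply_apply]
      show K1 a c (if a = c then (1 : Au p) else if true then w1 (a, c) else w2 (a, c))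
      rw [if_neg hac, if_pos rfl]
      exact (hw1 (a, c) hac).2
    · show K2 a c (uu (eq.symm (eq ((a, c), false))))
      rw [Equiv.symm_apply_apply]
      show K2 a c (if a = c then (1 : Au p) else if false then w1 (a, c) else w2 (a, c))
      rw [if_neg hac, if_neg (by simp)]
      exact (hw2 (a, c) hac).2
  obtain ⟨J, hJ⟩ := h3 n u hu1 hK k hk
  refine ⟨J, fun g hg hgJ => ?_⟩
  obtain ⟨h, hh, he⟩ := hG.solve k n u g hk (fun i => hN (huN _)) hg (hJ g hgJ)
  rw [he, pc]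
  apply Subgroup.list_prod_mem
  intro x hx
  rw [List.mem_ofFn] at hx
  obtain ⟨i, rfl⟩ := hx
  have e : u i * h i * (u i)⁻¹ * (h i)⁻¹ = u i * (h i * (u i)⁻¹ * (h i)⁻¹) := by group
  rw [e]
  exact mul_mem (huN _) (hcl (h i) (hh i).1 (hh i).2 _ (inv_mem (huN _)))

end Pool.Agent.N206.HJ
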