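import Pool.Agent.N206.HJ.Stm

set_option autoImplicit false

namespace Pool.Agent.N206.HJ

open MvPowerSeries

/-- product of a finite family -/
noncomputable def pr {p n : ℕ} (F : Fin n → Au p) : Au p := (List.ofFn F).prod

theorem pr_succ {p n : ℕ} (F : Fin (n + 1) → Au p) : pr F = F 0 * pr (fun i => F i.succ) := by
  rw [pr, List.ofFn_succ, List.prod_cons, pr]

theorem pr_zero {p : ℕ} (F : Fin 0 → Au p) : pr F = 1 := by
  rw [pr, List.ofFn_zero, List.prod_nil]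

theorem pr_mem {p n : ℕ} {K : Subgroup (Au p)} {F : Fin n → Au p} (h : ∀ i, F i ∈ K) :
    pr F ∈ K := by
  induction n with
  | zero => rw [pr_zero]; exact K.one_mem
  | succ n ih => rw [pr_succ]; exact K.mul_mem (h 0) (ih fun i => h i.succ)

/-- congruence modulo `Ga m` -/
def Eqv {p : ℕ} (m : ℕ) (a b : Au p) : Prop := a⁻¹ * b ∈ Ga p m

theorem Eqv.rfl' {p : ℕ} (m : ℕ) (a : Au p) : Eqv m a a := by
  rw [Eqv, inv_mul_cancel]; exact Subgroup.one_mem _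

theorem Eqv.symm {p : ℕ} {m : ℕ} {a b : Au p} (h : Eqv m a b) : Eqv m b a := by
  have := Subgroup.inv_mem _ h
  rwa [mul_inv_rev, inv_inv] at this

theorem Eqv.trans {p : ℕ} {m : ℕ} {a b c : Au p} (h : Eqv m a b) (h' : Eqv m b c) :
    Eqv m a c := by
  have := Subgroup.mul_mem _ h h'
  have e : a⁻¹ * b * (b⁻¹ * c) = a⁻¹ * c := by group
  rwa [e] at this

theorem conj_mem_Ga {p : ℕ} (h2 : S_GRP p) {m : ℕ} {x y : Au p} (hx : x ∈ Ga p m)
    (hy : y ∈ Ga p 1) : y * x * y⁻¹ ∈ Ga p m := by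
  have h := h2.1 1 m y x hy hx
  have := Subgroup.mul_mem _ (Ga_anti (by omega : m ≤ 1 + m) h) hx
  have e : y * x * y⁻¹ * x⁻¹ * x = y * x * y⁻¹ := by group
  rwa [e] at this

theorem Eqv.mul {p : ℕ} (h2 : S_GRP p) {m : ℕ} {a b c d : Au p} (h : Eqv m a b)
    (h' : Eqv m c d) (hc : c ∈ Ga p 1) : Eqv m (a * c) (b * d) := by
  have h3 := Subgroup.mul_mem _ (conj_mem_Ga h2 h (Subgroup.inv_mem _ hc)) h'
  have e : c⁻¹ * (a⁻¹ * b) * c⁻¹⁻¹ * (c⁻¹ * d) = (a * c)⁻¹ * (b * d) := by group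
  rwa [e] at h3

theorem Eqv.comm {p : ℕ} (h2 : S_GRP p) {j : ℕ} {x y : Au p} (hx : x ∈ Ga p j)
    (hy : y ∈ Ga p 1) : Eqv (j + 1) (x * y) (y * x) := by
  have h := h2.1 1 j y⁻¹ x⁻¹ (Subgroup.inv_mem _ hy) (Subgroup.inv_mem _ hx)
  have e : y⁻¹ * x⁻¹ * y⁻¹⁻¹ * x⁻¹⁻¹ = (x * y)⁻¹ * (y * x) := by group
  rw [e, add_comm 1 j] at h
  exact h

theorem Eqv.conj {p : ℕ} (h2 : S_GRP p) {j : ℕ} {x y : Au p} (hx : x ∈ Ga p j)
    (hy : y ∈ Ga p 1) : Eqv (j + 1) (y * x * y⁻¹) x := by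
  have h := h2.1 1 j y x⁻¹ hy (Subgroup.inv_mem _ hx)
  have e : y * x⁻¹ * y⁻¹ * x⁻¹⁻¹ = (y * x * y⁻¹)⁻¹ * x := by group
  rw [e, add_comm 1 j] at h
  exact h

theorem pr_congr {p n : ℕ} (h2 : S_GRP p) {m : ℕ} {F G : Fin n → Au p} (hF : ∀ i, F i ∈ Ga p 1)
    (h : ∀ i, Eqv m (F i) (G i)) : Eqv m (pr F) (pr G) := by
  induction n with
  | zero => rw [pr_zero, pr_zero]; exact Eqv.rfl' _ _
  | succ n ih =>
    rw [pr_succ, pr_succ]
    exact (h 0).mul h2 (ih (fun i => hF i.succ) fun i => h i.succ) (pr_mem fun i => hF i.succ)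

theorem pr_mul {p n : ℕ} (h2 : S_GRP p) {j : ℕ} (hj : 1 ≤ j) {F C : Fin n → Au p}
    (hF : ∀ i, F i ∈ Ga p 1) (hC : ∀ i, C i ∈ Ga p j) :
    Eqv (j + 1) (pr fun i => F i * C i) (pr F * pr C) := by
  induction n with
  | zero => simp only [pr_zero, one_mul]; exact Eqv.rfl' _ _
  | succ n ih =>
    rw [pr_succ, pr_succ F, pr_succ C]
    have h3 := ih (fun i => hF i.succ) (fun i => hC i.succ)
    have hC1 : ∀ i, C i ∈ Ga p 1 := fun i => Ga_anti hj (hC i)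
    have hF' : pr (fun i : Fin n => F i.succ) ∈ Ga p 1 := pr_mem fun i => hF i.succ
    have hC' : pr (fun i : Fin n => C i.succ) ∈ Ga p 1 := pr_mem fun i => hC1 i.succ
    have h4 : Eqv (j + 1) (F 0 * C 0 * pr fun i : Fin n => F i.succ * C i.succ)
        (F 0 * C 0 * (pr (fun i : Fin n => F i.succ) * pr (fun i : Fin n => C i.succ))) :=
      (Eqv.rfl' _ _).mul h2 h3 (pr_mem fun i => Subgroup.mul_mem _ (hF i.succ) (hC1 i.succ))
    refine h4.trans ?_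
    have h5 := Eqv.comm h2 (hC 0) hF'
    have h6 : Eqv (j + 1) (F 0 * (C 0 * pr (fun i : Fin n => F i.succ)))
        (F 0 * (pr (fun i : Fin n => F i.succ) * C 0)) :=
      (Eqv.rfl' _ _).mul h2 h5 (Subgroup.mul_mem _ (hC1 0) hF')
    have h7 := h6.mul h2 (Eqv.rfl' (j + 1) (pr (fun i : Fin n => C i.succ))) hC'
    simpa only [mul_assoc] using h7

theorem exists_seq {α : Type*} (P : ℕ → α → Prop) (R : ℕ → α → α → Prop) (a0 : α) (h0 : P 0 a0)
    (h : ∀ l a, P l a → ∃ a', P (l + 1) a' ∧ R l a a') :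
    ∃ f : ℕ → α, ∀ l, P l (f l) ∧ R l (f l) (f (l + 1)) := by
  classical
  have hne : Nonempty α := ⟨a0⟩
  choose! F hF using h
  let f : ℕ → α := fun l => Nat.rec a0 (fun l a => F l a) l
  have hf : ∀ l, f (l + 1) = F l (f l) := fun l => rfl
  have hP : ∀ l, P l (f l) := by
    intro l
    induction l with
    | zero => exact h0
    | succ l ih => rw [hf]; exact (hF l (f l) ih).1
  exact ⟨f, fun l => ⟨hP l, by rw [hf]; exact (hF l (f l) (hP l)).2⟩⟩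

theorem t_SURJ (p : ℕ) [Fact p.Prime] (h1 : S_STEP p) (h2 : S_GRP p) (h3 : S_CPL p) :
    S_SURJ p := by
  intro n u hu hK k hk
  obtain ⟨B, hB⟩ := h1 n u hu hK
  refine ⟨B + k + 1, fun γ hγ => ?_⟩
  have hpc : ∀ h : Fin n → Au p, pc u h = pr fun i => u i * h i * (u i)⁻¹ * (h i)⁻¹ :=
    fun h => rfl
  have hid : ∀ a b c : Au p, a * (b * c) * a⁻¹ * (b * c)⁻¹ =
      (a * b * a⁻¹ * b⁻¹) * (b * (a * c * a⁻¹ * c⁻¹) * b⁻¹) := by
    intro a b c; group
  have hcm : ∀ {m : ℕ} {a b : Au p}, a ∈ Ga p 1 → b ∈ Ga p m → a * b * a⁻¹ * b⁻¹ ∈ Ga p m :=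
    fun {m a b} ha hb => Ga_anti (by omega) (h2.1 1 m a b ha hb)
  obtain ⟨f, hf⟩ := exists_seq
    (fun l (h : Fin n → Au p) => (∀ i, h i ∈ Ga p (k + 1)) ∧
      (pc u h)⁻¹ * γ ∈ Ga p (B + k + 1 + l))
    (fun l h h' => ∀ i, (h i)⁻¹ * h' i ∈ Ga p (k + 1 + l))
    (fun _ => 1) (by
      refine ⟨fun i => Subgroup.one_mem _, ?_⟩
      have e : pc u (fun _ => (1 : Au p)) = 1 := by
        rw [hpc]
        have : (fun i : Fin n => u i * 1 * (u i)⁻¹ * (1 : Au p)⁻¹) = fun _ => 1 := by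
          funext i; group
        rw [this]
        have h4 : pr (fun _ : Fin n => (1 : Au p)) ∈ (⊥ : Subgroup (Au p)) :=
          pr_mem fun _ => Subgroup.one_mem _
        exact Subgroup.mem_bot.mp h4
      rw [e, inv_one, one_mul]
      exact hγ)
    (by
      rintro l h ⟨hh, hg⟩
      obtain ⟨v, hv1, hv2, hv3⟩ := hB (B + k + 1 + l) (by omega) _ hg
      have hj : B + k + 1 + l - B = k + 1 + l := by omega
      rw [hj] at hv1
      have hh1 : ∀ i, h i ∈ Ga p 1 := fun i => Ga_anti (by omega) (hh i)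
      refine ⟨fun i => h i * v i, ⟨fun i => Subgroup.mul_mem _ (hh i)
        (Ga_anti (by omega) (hv1 i)), ?_⟩, fun i => ?_⟩
      · have e1 : pc u (fun i => h i * v i) = pr fun i => (u i * h i * (u i)⁻¹ * (h i)⁻¹) *
            (h i * (u i * v i * (u i)⁻¹ * (v i)⁻¹) * (h i)⁻¹) := by
          rw [hpc]; congr 1; funext i; exact hid _ _ _
        have h5 : Eqv (B + k + 1 + l + 1) (pc u fun i => h i * v i)
            (pc u h * pr fun i => h i * (u i * v i * (u i)⁻¹ * (v i)⁻¹) * (h i)⁻¹) := by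
          rw [e1]
          exact pr_mul h2 (by omega) (fun i => hcm (hu i) (hh1 i))
            (fun i => conj_mem_Ga h2 (hv2 i) (hh1 i))
        have h6 : Eqv (B + k + 1 + l + 1)
            (pr fun i => h i * (u i * v i * (u i)⁻¹ * (v i)⁻¹) * (h i)⁻¹) (pc u v) := by
          rw [hpc]
          exact pr_congr h2 (fun i => conj_mem_Ga h2 (Ga_anti (by omega) (hv2 i)) (hh1 i))
            (fun i => Eqv.conj h2 (hv2 i) (hh1 i))
        have h7 : Eqv (B + k + 1 + l + 1) (pc u fun i => h i * v i) (pc u h * pc u v) :=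
          h5.trans ((Eqv.rfl' _ _).mul h2 h6
            (pr_mem fun i => conj_mem_Ga h2 (Ga_anti (by omega) (hv2 i)) (hh1 i)))
        have h8 : Eqv (B + k + 1 + l + 1) (pc u h * pc u v) γ := by
          have e : (pc u h * pc u v)⁻¹ * γ = (pc u v)⁻¹ * ((pc u h)⁻¹ * γ) := by group
          rw [Eqv, e]; exact hv3
        exact h7.trans h8
      · show (h i)⁻¹ * (h i * v i) ∈ _
        rw [inv_mul_cancel_left]
        exact hv1 i)
  have hlim : ∀ i, ∃ H ∈ Ga p (k + 1), ∀ l, (f l i)⁻¹ * H ∈ Ga p (k + 1 + l) := fun i =>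
    h3 (fun l => f l i) (k + 1) (by omega) (fun l => (hf l).1.1 i) (fun l => (hf l).2 i)
  choose H hH hHl using hlim
  refine ⟨H, fun i => Ga_anti (by omega) (hH i), ?_⟩
  have hfin : (pc u H)⁻¹ * γ = 1 := by
    apply h2.2.1
    intro l
    have h4 : Eqv (k + 1 + l) (pc u (f l)) (pc u H) := by
      rw [hpc, hpc]
      refine pr_congr h2 (fun i => hcm (hu i) (Ga_anti (by omega) ((hf l).1.1 i))) fun i => ?_
      have e : u i * H i * (u i)⁻¹ * (H i)⁻¹ = (u i * f l i * (u i)⁻¹ * (f l i)⁻¹) *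
          (f l i * (u i * ((f l i)⁻¹ * H i) * (u i)⁻¹ * ((f l i)⁻¹ * H i)⁻¹) * (f l i)⁻¹) := by
        rw [← hid, mul_inv_cancel_left]
      rw [e, Eqv, inv_mul_cancel_left]
      exact conj_mem_Ga h2 (hcm (hu i) (hHl i l)) (Ga_anti (by omega) ((hf l).1.1 i))
    have h5 : Eqv (k + 1 + l) (pc u (f l)) γ := Ga_anti (by omega) (hf l).1.2
    exact Ga_anti (by omega) (h4.symm.trans h5)
  rw [inv_mul_eq_one] at hfin
  exact hfin.symm

end Pool.Agent.N206.HJ
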