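import Pool.Agent.N206.HJ.Asm
import Pool.Agent.N403.HJ.EXIST
import Pool.Agent.N314.HJ.DET
import Pool.Agent.N768.HJ.TAY
import Pool.Agent.N564.HJ.PGR
import Pool.Agent.N206.HJ.CPL
import Pool.Agent.N488.HJ.ADDC
import Pool.Agent.N123.HJ.START
import Pool.Agent.N221.HJ.BR
import Pool.Agent.N897.HJ.HT
import Pool.Agent.N206.HJ.EXTR
import Pool.Agent.N206.HJ.FA
import Pool.Agent.N206.HJ.FB
import Pool.Agent.N206.HJ.FIRST
import Pool.Agent.N921.HJ.LT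
import Pool.Agent.N564.HJ.SECOND
import Pool.Agent.N971.HJ.STEPA
import Pool.Agent.N971.HJ.STEPB
import Pool.Agent.N206.HJ.SURJ
import Pool.Agent.N591.HJ.BLOW
import Pool.Agent.N921.HJ.SS
import Pool.Agent.N616.HJ.Lin0
import Pool.Agent.N616.HJ.Linp
import Pool.Agent.N971.HJ.CNT
import Pool.Agent.N206.HJ.KEY
import Pool.Agent.N616.HJ.Fin1
import Pool.Agent.N616.HJ.Unb
import Pool.Agent.N206.HJ.FIN2
import Pool.Agent.N206.HJ.FIN3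

set_option autoImplicit false

namespace Pool.Agent.N206.HJ

theorem final (p : ℕ) [Fact p.Prime] :
    ∃ (G : Type) (_ : Group G), Countable G ∧ RF G ∧ HJI G ∧ SelfSimilar G ∧ ¬ Linear G :=
  asm_all p (Pool.Agent.N403.HJ.t_EXIST p) (Pool.Agent.N314.HJ.t_DET p)
    (Pool.Agent.N314.HJ.t_DET2 p) (Pool.Agent.N768.HJ.t_TAY p) (Pool.Agent.N564.HJ.t_PPOW p)
    (Pool.Agent.N564.HJ.t_GRP p) (t_CPL p) (Pool.Agent.N488.HJ.t_ADD p)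
    (Pool.Agent.N488.HJ.t_CONJ p) (Pool.Agent.N123.HJ.t_START p) (Pool.Agent.N221.HJ.t_BR p)
    (Pool.Agent.N897.HJ.t_HT p) (t_EXTR p) (t_FA p) (t_FB p) (t_FIRST p)
    (Pool.Agent.N921.HJ.LT.t_LT p) (Pool.Agent.N921.HJ.LT.t_CENT p) (Pool.Agent.N564.HJ.t_SECOND p)
    (Pool.Agent.N971.HJ.STEPA.t_STEPA p) (Pool.Agent.N971.HJ.STEPB.t_STEP p) (t_SURJ p)
    (Pool.Agent.N591.HJ.t_BLOW p) Pool.Agent.N921.HJ.SS.t_SS Pool.Agent.N616.HJ.t_LIN0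
    Pool.Agent.N616.HJ.t_LINP (Pool.Agent.N616.HJ.t_UNB p) Pool.Agent.N971.HJ.CNT.t_CLOS (Pool.Agent.N971.HJ.CNT.t_CNT p)
    (t_KEY p) (Pool.Agent.N616.HJ.t_FIN1 p) (t_FIN2 p) (t_FIN3 p)

end Pool.Agent.N206.HJ
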