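import Pool.Agent.N206.HJ.Basic

set_option autoImplicit false

namespace Pool.Agent.N206.HJ

open MvPowerSeries

variable (p : ℕ)

/-- `N` is normalised by the polynomial elements of `Ga k` -/
def Cl (k : ℕ) (N : Subgroup (Au p)) : Prop :=
  ∀ h ∈ Ga p k, Poly h → ∀ u ∈ N, h * u * h⁻¹ ∈ N

/-- for all exponents `m + v`, `v` a large multiple of `p`, `m` large and divisible by a large power
of `p` depending on `v` -/
def Ev (Q : ℕ → Prop) : Prop :=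
  ∃ ν0 : ℕ, ∀ ν ≥ ν0, p ∣ ν → ∃ P0 : ℕ, ∀ m ≥ P0, p ^ P0 ∣ m → Q (m + ν)

/-- the vector fields `D` such that `1 + x_a^e D` is approximated by elements of `N` -/
def Nn (N : Subgroup (Au p)) (a : Fin 3) (D : Fin 3 → A p) : Prop :=
  ∀ R : ℕ, Ev p (fun e => ∃ u ∈ N, Ap (e + R) (fun i => X a ^ e * D i) u)

/-! ### power series and automorphisms -/

/-- existence of automorphisms -/
def S_EXIST : Prop := ∀ (k : ℕ), 1 ≤ k → ∀ δ : Fin 3 → A p, (∀ i, δ i ∈ M p (k + 1)) →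
  ∃ g ∈ Ga p k, ∀ i, g (X i) = X i + δ i

/-- automorphisms are determined by the images of the variables, quantitatively -/
def S_DET : Prop := ∀ (g h : Au p) (s : ℕ), g ∈ Ga p 1 → h ∈ Ga p 1 →
  (∀ i, g (X i) - h (X i) ∈ M p (s + 1)) → ∀ t : ℕ, ∀ f ∈ M p t, g f - h f ∈ M p (t + s)

/-- consequences of `S_DET` -/
def S_DET2 : Prop :=
  (∀ g ∈ Ga p 1, ∀ h ∈ Ga p 1, (∀ i, g (X i) = h (X i)) → g = h) ∧
  (∀ g ∈ Ga p 1, ∀ k : ℕ, (∀ i, g (X i) - X i ∈ M p (k + 1)) → g ∈ Ga p k)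

/-- Taylor formula of order one -/
def S_TAY : Prop := ∀ (u : Au p) (s : ℕ), 1 ≤ s → u ∈ Ga p 1 → (∀ i, u (X i) - X i ∈ M p s) →
  ∀ t : ℕ, ∀ f ∈ M p t, u f - f - vf (fun i => u (X i) - X i) f ∈ M p (t + 2 * s - 2)

/-- powers with exponents divisible by powers of `p` -/
def S_PPOW : Prop := ∀ (ε : A p) (a : Fin 3) (s m j : ℕ), ε ∈ M p s → 1 ≤ s → p ^ j ∣ m →
  (X a + ε) ^ m - X a ^ m ∈ M p (m + p ^ j * (s - 1))

/-- elementary facts on the congruence subgroups -/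
def S_GRP : Prop :=
  (∀ (i j : ℕ) (g h : Au p), g ∈ Ga p i → h ∈ Ga p j → g * h * g⁻¹ * h⁻¹ ∈ Ga p (i + j)) ∧
  (∀ g : Au p, (∀ k : ℕ, g ∈ Ga p k) → g = 1) ∧
  (∀ (k : ℕ), (Ga p k).relIndex (Ga p 1) ≠ 0)

/-- completeness -/
def S_CPL : Prop := ∀ (g : ℕ → Au p) (k : ℕ), 1 ≤ k → (∀ l, g l ∈ Ga p k) →
  (∀ l, (g l)⁻¹ * g (l + 1) ∈ Ga p (k + l)) → ∃ G ∈ Ga p k, ∀ l, (g l)⁻¹ * G ∈ Ga p (k + l)

/-! ### approximations -/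

/-- products and inverses -/
def S_ADD : Prop := ∀ (u v : Au p) (D E : Fin 3 → A p) (m R : ℕ), u ∈ Ga p 1 → v ∈ Ga p 1 →
  (∀ i, D i ∈ M p m) → (∀ i, E i ∈ M p m) → 2 ≤ m → R + 1 ≤ m → Ap (m + R) D u → Ap (m + R) E v →
  Ap (m + R) (fun i => D i + E i) (u * v) ∧ Ap (m + R) (fun i => - D i) u⁻¹

/-- the starting commutator -/
def S_START : Prop := ∀ (g v : Au p) (a : Fin 3) (E : Fin 3 → A p) (m j R : ℕ), g ∈ Ga p 1 →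
  v ∈ Ga p 1 → p ^ j ∣ m → R ≤ p ^ j → R + 2 ≤ m → (∀ i, v (X i) = X i + X a ^ m * E i) →
  Ap (m + R) (fun i => X a ^ m * (g (vf E (g⁻¹ (X i))) - E i)) (g * v * g⁻¹ * v⁻¹)

/-- the bracket -/
def S_BR : Prop := ∀ (u h : Au p) (a : Fin 3) (D E : Fin 3 → A p) (m n R : ℕ), u ∈ Ga p 1 →
  h ∈ Ga p 1 → p ∣ m → p ∣ n → R + 2 ≤ n → n + R + 2 ≤ m →
  (∀ i, h (X i) = X i + X a ^ n * E i) → Ap (m + n + R) (fun i => X a ^ m * D i) u →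
  Ap (m + n + R) (fun i => X a ^ (m + n) * br E D i) (h * u * h⁻¹ * u⁻¹)

/-- conjugation by an elementary automorphism -/
def S_CONJ : Prop := ∀ (u h : Au p) (a b : Fin 3) (D : Fin 3 → A p) (m n R : ℕ), a ≠ b →
  u ∈ Ga p 1 → h ∈ Ga p 1 → p ∣ n → 2 ≤ n → R + 2 ≤ m → Tr b (X a ^ n) h →
  Ap (m + R) (fun i => X a ^ m * D i) u → Ap (m + R) (fun i => X a ^ m * h (D i)) (h * u * h⁻¹)

/-- Hasse-Taylor formula -/
def S_HT : Prop := ∀ (h : Au p) (a b : Fin 3) (n : ℕ), a ≠ b → 2 ≤ n → h ∈ Ga p 1 →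
  Tr b (X a ^ n) h → ∀ (f : A p) (r : ℕ), ∃ ρ : A p,
    h f = (∑ s ∈ Finset.range (r + 1), X a ^ (n * s) * hs b s f) + X a ^ (n * (r + 1)) * ρ

/-- extraction of a leading form which is a power of `x_a` -/
def S_EXTR : Prop := ∀ (D : Fin 3 → A p), D ≠ 0 → ∀ a b c : Fin 3, a ≠ b → a ≠ c → b ≠ c →
  ∃ (j k i : ℕ) (v : Fin 3 → ZMod p), v ≠ 0 ∧
    ∀ e, hs b j (hs c k (D e)) - C (v e) * X a ^ i ∈ M p (i + 1)

/-- a non-zero vector field is approximated -/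
def S_FA : Prop := ∀ (k : ℕ) (N : Subgroup (Au p)), 1 ≤ k → N ≤ Ga p 1 → N ≠ ⊥ → Cl p k N →
  ∀ a, ∃ D, D ≠ 0 ∧ Nn p N a D

/-- Hasse derivatives of approximated vector fields are approximated -/
def S_FB : Prop := ∀ (k : ℕ) (N : Subgroup (Au p)), 1 ≤ k → N ≤ Ga p 1 → Cl p k N →
  ∀ (a b : Fin 3) (D : Fin 3 → A p) (r : ℕ), a ≠ b → Nn p N a D → Nn p N a (fun i => hs b r (D i))

/-- elements with leading term a multiple of a power of `x_a` -/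
def S_FIRST : Prop := ∀ (k : ℕ) (N : Subgroup (Au p)), 1 ≤ k → N ≤ Ga p 1 → N ≠ ⊥ → Cl p k N →
  ∀ a : Fin 3, ∃ (j : ℕ) (v : Fin 3 → ZMod p), 2 ≤ j ∧ v ≠ 0 ∧
    ∃ u ∈ N, Ap (j + 1) (fun i => C (v i) * X a ^ j) u

/-- leading terms of commutators -/
def S_LT : Prop := ∀ (u h : Au p) (D E : Fin 3 → A p) (s t : ℕ), 2 ≤ s → 2 ≤ t → u ∈ Ga p 1 →
  h ∈ Ga p 1 → (∀ i, D i ∈ M p s) → (∀ i, E i ∈ M p t) → Ap (s + 1) D u → Ap (t + 1) E h →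
  Ap (s + t) (br D E) (u * h * u⁻¹ * h⁻¹)

/-- no element commutes with all deep polynomial automorphisms -/
def S_CENT : Prop := ∀ g ∈ Ga p 1, g ≠ 1 → ∀ J : ℕ, ∃ h ∈ Ga p J, Poly h ∧ g * h * g⁻¹ * h⁻¹ ≠ 1

/-- the two kinds of leading terms needed in the end -/
def K1 {p : ℕ} (a c : Fin 3) (u : Au p) : Prop := ∃ (m : ℕ) (κ : ZMod p), κ ≠ 0 ∧ p ∣ m ∧ 2 ≤ m ∧
  Ap (m + 1) (fun i => if i = c then C κ * X a ^ m else 0) u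

def K2 {p : ℕ} (a c : Fin 3) (u : Au p) : Prop := ∃ (m : ℕ) (κ : ZMod p), κ ≠ 0 ∧ p ∣ m ∧ 2 ≤ m ∧
  Ap (m + 2) (fun i => if i = c then C κ * X a ^ m * X c else 0) u

def S_SECOND : Prop := ∀ (k : ℕ) (N : Subgroup (Au p)), 1 ≤ k → N ≤ Ga p 1 → Cl p k N →
  (∀ a : Fin 3, ∃ (j : ℕ) (v : Fin 3 → ZMod p), 2 ≤ j ∧ v ≠ 0 ∧
    ∃ u ∈ N, Ap (j + 1) (fun i => C (v i) * X a ^ j) u) →
  ∀ a c : Fin 3, a ≠ c → (∃ u ∈ N, K1 a c u) ∧ (∃ u ∈ N, K2 a c u)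

/-- the vector field `κ x_a^m ∂_c` -/
noncomputable def fld1 {p : ℕ} (a c : Fin 3) (m : ℕ) (κ : ZMod p) : Fin 3 → A p :=
  fun i => if i = c then C κ * X a ^ m else 0

/-- the vector field `κ x_a^m x_c ∂_c` -/
noncomputable def fld2 {p : ℕ} (a c : Fin 3) (m : ℕ) (κ : ZMod p) : Fin 3 → A p :=
  fun i => if i = c then C κ * X a ^ m * X c else 0

/-- surjectivity in the graded Lie algebra -/
def S_STEPA : Prop := ∀ (m1 m2 : Fin 3 → Fin 3 → ℕ) (κ1 κ2 : Fin 3 → Fin 3 → ZMod p),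
  (∀ a c, a ≠ c → κ1 a c ≠ 0 ∧ κ2 a c ≠ 0 ∧ p ∣ m1 a c ∧ p ∣ m2 a c) →
  ∃ B : ℕ, (∀ a c, m1 a c ≤ B ∧ m2 a c ≤ B) ∧ ∀ j : ℕ, B ≤ j → ∀ Z : Fin 3 → A p,
    (∀ e, Z e ∈ M p (j + 1)) → ∃ W1 W2 : Fin 3 → Fin 3 → Fin 3 → A p,
      (∀ a c e, W1 a c e ∈ M p (j + 2 - m1 a c) ∧ W2 a c e ∈ M p (j + 1 - m2 a c)) ∧
      ∀ e, Z e - ∑ a : Fin 3, ∑ c : Fin 3, (if a = c then 0 else
        br (fld1 a c (m1 a c) (κ1 a c)) (W1 a c) e + br (fld2 a c (m2 a c) (κ2 a c)) (W2 a c) e)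
        ∈ M p (j + 2)

/-- one step of the successive approximation -/
def S_STEP : Prop := ∀ (n : ℕ) (u : Fin n → Au p), (∀ i, u i ∈ Ga p 1) →
  (∀ a c : Fin 3, a ≠ c → (∃ i, K1 a c (u i)) ∧ (∃ i, K2 a c (u i))) →
  ∃ B : ℕ, ∀ j : ℕ, B + 1 ≤ j → ∀ γ ∈ Ga p j, ∃ v : Fin n → Au p,
    (∀ i, v i ∈ Ga p (j - B)) ∧ (∀ i, u i * v i * (u i)⁻¹ * (v i)⁻¹ ∈ Ga p j) ∧
    (pc u v)⁻¹ * γ ∈ Ga p (j + 1)

/-- all deep elements are products of commutators with the given elements -/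
def S_SURJ : Prop := ∀ (n : ℕ) (u : Fin n → Au p), (∀ i, u i ∈ Ga p 1) →
  (∀ a c : Fin 3, a ≠ c → (∃ i, K1 a c (u i)) ∧ (∃ i, K2 a c (u i))) →
  ∀ k : ℕ, 1 ≤ k → ∃ J : ℕ, ∀ γ ∈ Ga p J, ∃ h : Fin n → Au p, (∀ i, h i ∈ Ga p k) ∧ γ = pc u h

/-! ### the blow-up and self-similarity -/

/-- the virtual endomorphism: lifting to the blow-up -/
def S_BLOW : Prop := ∃ φ : Ga p 2 →* Au p,
  (∀ k : ℕ, 2 ≤ k → ∀ g : Ga p 2, (g : Au p) ∈ Ga p k → φ g ∈ Ga p (k - 1)) ∧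
  (∀ N : ℕ, 3 ≤ N → ∀ g : Ga p 2, Tr 1 (X 0 ^ N) (g : Au p) → Tr 1 (X 0 ^ (N - 1)) (φ g))

/-- a virtual endomorphism with trivial core gives a self-similar action -/
def S_SS : Prop := ∀ (G : Type) [Group G] (H : Subgroup G) (φ : H →* G), H.FiniteIndex → H ≠ ⊤ →
  (∀ K : Subgroup G, K.Normal → K ≤ H → (∀ g : H, (g : G) ∈ K → φ g ∈ K) → K = ⊥) → SelfSimilar G

/-! ### linearity -/

/-- no infinite elementary abelian `q`-group is linear in characteristic different from `q` -/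
def S_LIN0 : Prop := ∀ (q : ℕ) [Fact q.Prime] (K : Type) [Field K] (n : ℕ) (E : Type) [CommGroup E]
  (f : E →* GL (Fin n) K), (q : K) ≠ 0 → (∀ x : E, x ^ q = 1) → Infinite E →
  ¬ Function.Injective f

/-- finite `q`-groups of matrices in characteristic `q` are nilpotent of bounded class -/
def S_LINP : Prop := ∀ (q : ℕ) [Fact q.Prime] (K : Type) [Field K] [CharP K q] (n : ℕ) (G : Type)
  [Group G] (P : Subgroup G) [Finite P] (f : P →* GL (Fin n) K), IsPGroup q P →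
  Function.Injective f → P.lowerCentralSeries n = ⊥

/-- finite `p`-subgroups of unbounded class, and an infinite elementary abelian subgroup -/
def S_UNB : Prop :=
  (∀ n : ℕ, ∃ P : Subgroup (Au p), P ≤ Ga p 1 ∧ (∀ g ∈ P, Poly g) ∧ Finite P ∧ IsPGroup p P ∧
    P.lowerCentralSeries n ≠ ⊥) ∧
  (∃ E : Subgroup (Au p), E ≤ Ga p 1 ∧ (∀ g ∈ E, Poly g) ∧ Infinite E ∧ (∀ g ∈ E, g ^ p = 1) ∧
    ∀ g ∈ E, ∀ h ∈ E, g * h = h * g)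

/-! ### the countable group -/

/-- closing a countable set under countably many operations -/
def S_CLOS : Prop := ∀ (G : Type) [Group G] (S : Set G), S.Countable → ∀ ops : ℕ → List G → G,
  ∃ H : Subgroup G, (H : Set G).Countable ∧ S ⊆ (H : Set G) ∧
    ∀ (i : ℕ) (l : List G), (∀ x ∈ l, x ∈ H) → ops i l ∈ H

/-- the subgroups we consider -/
structure Good (φ : Ga p 2 →* Au p) (G0 : Subgroup (Au p)) : Prop where
  le : G0 ≤ Ga p 1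
  poly : ∀ g ∈ Ga p 1, Poly g → g ∈ G0
  phi : ∀ g : Ga p 2, (g : Au p) ∈ G0 → φ g ∈ G0
  solve : ∀ (k n : ℕ) (u : Fin n → Au p) (γ : Au p), 1 ≤ k → (∀ i, u i ∈ G0) → γ ∈ G0 →
    (∃ h : Fin n → Au p, (∀ i, h i ∈ Ga p k) ∧ γ = pc u h) →
    ∃ h : Fin n → Au p, (∀ i, h i ∈ G0 ∧ h i ∈ Ga p k) ∧ γ = pc u h

/-- a countable good subgroup exists -/
def S_CNT : Prop := ∀ φ : Ga p 2 →* Au p, (∀ g : Ga p 2, φ g ∈ Ga p 1) →
  ∃ G0 : Subgroup (Au p), Good p φ G0 ∧ Countable G0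

/-- normal subgroups of good subgroups are large -/
def S_KEY : Prop := ∀ (φ : Ga p 2 →* Au p) (G0 : Subgroup (Au p)), Good p φ G0 → ∀ (k : ℕ), 1 ≤ k →
  ∀ N : Subgroup (Au p), N ≤ G0 → N ≠ ⊥ → (∀ h ∈ G0, h ∈ Ga p k → ∀ u ∈ N, h * u * h⁻¹ ∈ N) →
  ∃ J : ℕ, ∀ g ∈ G0, g ∈ Ga p J → g ∈ N

/-- the abstract consequence for good subgroups: residually finite, hereditarily just infinite,
self-similar -/
def S_FIN1 : Prop := ∀ (φ : Ga p 2 →* Au p) (G0 : Subgroup (Au p)), Good p φ G0 →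
  RF G0 ∧ HJI G0

def S_FIN2 : Prop := ∀ (φ : Ga p 2 →* Au p) (G0 : Subgroup (Au p)), Good p φ G0 →
  (∀ k : ℕ, 2 ≤ k → ∀ g : Ga p 2, (g : Au p) ∈ Ga p k → φ g ∈ Ga p (k - 1)) →
  (∀ N : ℕ, 3 ≤ N → ∀ g : Ga p 2, Tr 1 (X 0 ^ N) (g : Au p) → Tr 1 (X 0 ^ (N - 1)) (φ g)) →
  SelfSimilar G0

def S_FIN3 : Prop := ∀ (φ : Ga p 2 →* Au p) (G0 : Subgroup (Au p)), Good p φ G0 → ¬ Linear G0

end Pool.Agent.N206.HJ
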