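import Mathlib

set_option autoImplicit false

namespace Pool.Agent.N206.HJ

open Cardinal in
/-- a linear countable group is linear over a (countable) field in the lowest universe -/
theorem linear_down.{u} {G : Type} [Group G] [Countable G] {K : Type u} [Field K] {n : ℕ}
    (f : G →* GL (Fin n) K) (hf : Function.Injective f) :
    ∃ (K' : Type) (_ : Field K') (f' : G →* GL (Fin n) K'), Function.Injective f' := by
  let S : Set K := Set.range (fun x : G × Fin n × Fin n => (f x.1 : Matrix (Fin n) (Fin n) K)
    x.2.1 x.2.2)
  have hS : S.Countable := Set.countable_range _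
  let K1 := Subfield.closure S
  have hK1 : Countable K1 := by
    rw [← mk_le_aleph0_iff]
    exact (Subfield.cardinalMk_closure_le_max S).trans (max_le (mk_le_aleph0_iff.mpr hS) le_rfl)
  have : Small.{0} K1 := Countable.toSmall K1
  have hmem : ∀ g i j, (f g : Matrix (Fin n) (Fin n) K) i j ∈ K1 := fun g i j =>
    Subfield.subset_closure ⟨(g, i, j), rfl⟩
  let F0 : G →* Matrix (Fin n) (Fin n) K1 :=
    { toFun := fun g => Matrix.of fun i j => ⟨(f g : Matrix (Fin n) (Fin n) K) i j, hmem g i j⟩
      map_one' := by
        ext i j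
        show (f 1 : Matrix (Fin n) (Fin n) K) i j = ((1 : Matrix (Fin n) (Fin n) K1) i j : K)
        rw [map_one, Units.val_one, Matrix.one_apply, Matrix.one_apply]
        split_ifs <;> rfl
      map_mul' := by
        intro g h
        ext i j
        show (f (g * h) : Matrix (Fin n) (Fin n) K) i j = _
        rw [map_mul, Units.val_mul, Matrix.mul_apply]
        conv_rhs => rw [Matrix.mul_apply]
        push_cast
        rfl }
  let F1 : G →* Matrix (Fin n) (Fin n) (Shrink.{0} K1) :=
    (((Shrink.ringEquiv K1).symm.toRingHom.mapMatrix : Matrix (Fin n) (Fin n) K1 →+*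
      Matrix (Fin n) (Fin n) (Shrink.{0} K1)) : Matrix (Fin n) (Fin n) K1 →*
      Matrix (Fin n) (Fin n) (Shrink.{0} K1)).comp F0
  refine ⟨Shrink.{0} K1, inferInstance, F1.toHomUnits, ?_⟩
  intro g h hgh
  have h1 : F1 g = F1 h := congrArg Units.val hgh
  apply hf
  apply Units.ext
  ext i j
  have h2 := congrFun (congrFun h1 i) j
  have h3 : (F0 g) i j = (F0 h) i j := (Shrink.ringEquiv K1).symm.injective h2
  exact congrArg Subtype.val h3

end Pool.Agent.N206.HJ
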